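import Pool.Agent.TH563.V.Defs
import Pool.Agent.TH929.J29
import Pool.Agent.TH563.UV.Crit3
import Pool.Agent.TH563.Z.Child2

/-!
# Job 1742 (V-LT): the last step at a vertex with a circle
-/

set_option autoImplicit false
set_option maxHeartbeats 1000000

namespace Pool.Agent.TH886.J1742

open Filter Finset Topology Metric
open Pool.Agent.W711.HT hiding XX
open Pool.Agent.W719.AX
open Pool.Agent.W85.HT hiding Rc_mono
open Pool.Agent.W688.AX (sq3_ev sqrt4 ux_one)
open Pool.Agent.TH563.UV (UN Eb real_axis)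
open Pool.Agent.TH563.V (GoodV S_VLT)
open Pool.Agent.TH929.J29
open scoped Real

theorem main : S_VLT := by
  intro ρ τ κ c C hρ0 hρ1 hτ0 hτρ hκ0 hc0 hC0 ρ₂ τ₂ hρ20 hρ₂ hτ20 hτ₂ t m X F A ht hX hA a
  have hUPB : S_UPB := upb
  have hπ := Real.pi_gt_three
  have hρπ : ρ ≤ π := by linarith
  have ht' : (1 : ℝ) ≤ t := by exact_mod_cast ht
  have hct : 0 < c * t := by positivity
  have hCt : 0 ≤ C * t := by positivity
  have hg := hX.gh
  have hm2 : (0 : ℂ) ∈ Rc (2 * ρ) (2 * τ) := by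
    refine ⟨?_, ?_⟩
    · rw [Complex.zero_re, abs_zero]; linarith
    · rw [Complex.zero_im, abs_zero]; linarith
  have hKc : Kc ρ₂ τ₂ ⊆ Rc (3 * ρ) (3 * τ) := by
    intro w hw
    rw [Kc_mem] at hw
    exact ⟨by linarith [hw.1], by linarith [hw.2]⟩
  have hSK : Rc ρ₂ τ₂ ⊆ Kc ρ₂ τ₂ := by
    intro w hw
    rw [Kc_mem]
    exact ⟨hw.1.le, hw.2.le⟩
  have hRr : Rc ρ₂ τ₂ ⊆ Rc (3 * ρ) (3 * τ) := hSK.trans hKc
  have hball : ∀ u ∈ ball (0 : ℂ) (min ρ₂ τ₂), u ∈ Rc ρ₂ τ₂ := by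
    intro u hu
    rw [mem_ball_zero_iff] at hu
    exact ⟨(Complex.abs_re_le_norm u).trans_lt (hu.trans_le (min_le_left _ _)),
      (Complex.abs_im_le_norm u).trans_lt (hu.trans_le (min_le_right _ _))⟩
  have hdec : ∀ p ∈ (Set.univ : Set Unit), ∀ x : ℝ, |x| ≤ ρ →
      (F x).re ≤ (F 0).re - c * t / 2 * x ^ 2 := fun _ _ x hx => real_axis hg hτ0 hρ0 x hx
  have hMW : ∀ ε : ℝ, 0 < ε → ∀ᶠ N : ℕ in atTop, ∀ w ∈ Rc (2 * ρ) (2 * τ),
      ∀ p ∈ (Set.univ : Set Unit), X N w ≠ 0 ∧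
      |Real.log ‖X N w‖ - N * (F w).re| ≤ ε * N := by
    intro ε hε
    filter_upwards [hX.mw ε hε] with N h1 w hw _ _
    exact h1 w hw
  obtain ⟨κ₁, hκ₁, hloc⟩ := locb hUPB (a := a) (K := (Set.univ : Set Unit))
    (Y := fun N w _ => X N w) (G := fun w _ => F w)
    (c₀ := c * t / 2) (L := C * t) (τ₁ := τ) hρ0 hρπ hτ0 hτ0 (fun N _ _ => hX.an N) hMW
    (by positivity) hCt hdec
    (fun p hp x y hx hy hy' => Pool.Agent.TH563.Z.gh_up hg hρ0 hτ0 hCt hx hy hy')
    ⟨κ / 2, by positivity, by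
      filter_upwards [hX.gl1] with N h1 p hp x y hx1 hx2 hy
      refine (h1 x y hx1 hx2 hy).trans (Real.exp_le_exp.2
        (mul_le_mul_of_nonneg_left ?_ (Nat.cast_nonneg N)))
      have : 1 * (κ / 2) ≤ (t : ℝ) * (κ / 2) :=
        mul_le_mul_of_nonneg_right ht' (by positivity)
      linarith⟩
  have hG0 : deriv F 0 = 0 := hg.d0 hρ0 hτ0
  have hG2 := hg.d2 0 hm2
  obtain ⟨BF, hBF⟩ := (Kc_compact ρ₂ τ₂).exists_bound_of_continuousOn
    (hg.an.continuousOn.mono hKc)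
  have e0 : (fun w => F w + (0 : ℂ)) = F := by funext w; simp
  obtain ⟨B, hB, hB0⟩ := locxb f_LX Pool.Agent.W303.AX.uxmul (δ := min ρ₂ τ₂) (c := c * t)
    (a := a) (S := (Set.univ : Set Unit)) (X := X) (F := F) (A := A) (k := fun _ _ _ => 1)
    (k' := fun k _ => if k = 0 then 1 else 0)
    (σ := fun _ _ => 0) (V := fun _ => F 0)
    (W := fun N _ => upp (1 / N) fun ψ => Eb true a N ψ * X N ψ * kr N ψ)
    (lt_min hρ20 hτ20) hct hA hX.an (hg.an.mono hRr) hball
    ⟨max BF 0, fun w hw => ⟨(hBF w (hSK hw)).trans (le_max_left _ _), fun p hp => by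
      rw [norm_zero]; exact le_max_right _ _⟩⟩
    (fun _ _ _ => continuousOn_const) (fun _ _ => differentiableOn_const _)
    (ux_one _) (fun _ _ _ => differentiableOn_const _)
    (fun x _ => by simp)
    (fun p _ => by
      rw [e0]
      exact ⟨by simp, hG0, hG2⟩)
    (by
      intro δ' hδ'0 hδ'
      have hδρ : δ' ≤ ρ := by
        have := min_le_left ρ₂ τ₂
        linarith
      obtain ⟨κ₂, hκ₂, hout⟩ := outer (a := a) (K := (Set.univ : Set Unit))
        (Y := fun N w _ => X N w) (G := fun w _ => F w)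
        (c₀ := c * t / 2) hρ0 (by linarith) hτ0 hδ'0 hδρ (fun N _ _ => hX.an N) hMW
        (by positivity) hdec
      refine ⟨min κ₁ κ₂ / 2, by have := lt_min hκ₁ hκ₂; positivity, ?_⟩
      filter_upwards [hloc, hout, ev_exp (show 0 < min κ₁ κ₂ / 2 by
          have := lt_min hκ₁ hκ₂; positivity) 2] with N h1 h2 h4 p hp
      have hN' : (0 : ℝ) ≤ N := Nat.cast_nonneg N
      have k1 := h1 p hp
      have k2 := h2 p hp
      simp only [mul_zero, Complex.exp_zero, mul_one]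
      have eW : (upp (1 / N) fun ψ => Eb true a N ψ * X N ψ * kr N ψ) =
          upp (1 / N) fun w => Ea a N w * (UN N w * X N w) * kr N w := by
        unfold Pool.Agent.TH563.UV.Eb
        congr 1
        funext w
        simp only [if_true]
        ring
      rw [eW]
      obtain ⟨V, hV⟩ : ∃ V : ℝ, V = (F 0).re := ⟨_, rfl⟩
      rw [← hV] at k1 k2 ⊢
      obtain ⟨I1, hI1⟩ : ∃ I1 : ℂ, I1 = ∫ x in (-ρ)..ρ, Ea a N x * X N x := ⟨_, rfl⟩
      obtain ⟨I2, hI2⟩ : ∃ I2 : ℂ, I2 = ∫ x in (-δ')..δ', Ea a N x * X N x := ⟨_, rfl⟩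
      rw [← hI1] at k1 k2
      rw [← hI2] at k2 ⊢
      obtain ⟨T, hT⟩ : ∃ T : ℂ, T = upp (1 / N) fun w => Ea a N w * (UN N w *
        X N w) * kr N w := ⟨_, rfl⟩
      rw [← hT] at k1 ⊢
      have e3 : T - (-Complex.I) * I2 = (T - (-Complex.I) * I1) +
            (-Complex.I) * (I1 - I2) := by ring
      rw [e3]
      refine (norm_add_le _ _).trans ?_
      rw [norm_mul (-Complex.I), norm_neg, Complex.norm_I, one_mul]
      have a1 : Real.exp (N * (V - κ₁)) ≤ Real.exp (N * (V - min κ₁ κ₂)) :=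
        Real.exp_le_exp.2 (mul_le_mul_of_nonneg_left
          (by linarith [min_le_left κ₁ κ₂]) hN')
      have a2 : Real.exp (N * (V - κ₂)) ≤ Real.exp (N * (V - min κ₁ κ₂)) :=
        Real.exp_le_exp.2 (mul_le_mul_of_nonneg_left
          (by linarith [min_le_right κ₁ κ₂]) hN')
      have a3 := mul_le_mul_of_nonneg_right h4 (Real.exp_pos (N * (V - min κ₁ κ₂))).le
      have e4 : Real.exp (N * (V - min κ₁ κ₂ / 2)) =
          Real.exp (min κ₁ κ₂ / 2 * N) * Real.exp (N * (V - min κ₁ κ₂)) := by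
        rw [← Real.exp_add]
        congr 1
        ring
      rw [e4]
      linarith)
  refine ⟨fun k => B k (), hB0 () (Set.mem_univ _), ?_⟩
  have hfun : (fun (N : ℕ) (_ : Unit) => (N : ℂ) ^ (2 * m) * (Real.sqrt N : ℂ) *
      (-1) ^ (N * (m + 1)) * Complex.exp (-(N * (F 0 + π * Complex.I))) *
      upp (1 / N) fun ψ => Eb true a N ψ * X N ψ * kr N ψ) =
      (fun (N : ℕ) (_ : Unit) => (N : ℂ) ^ (2 * m) * (Real.sqrt N : ℂ) * (-1) ^ (N * m) *
      Complex.exp (-(N * F 0)) * upp (1 / N) fun ψ => Eb true a N ψ * X N ψ * kr N ψ) := by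
    funext N _
    have e4 : Complex.exp (-(N * (F 0 + π * Complex.I))) =
        Complex.exp (-(N * F 0)) * (-1) ^ N := by
      have e5 : -((N : ℂ) * (F 0 + π * Complex.I)) =
          -(N * F 0) + -((N : ℂ) * (π * Complex.I)) := by ring
      rw [e5, Complex.exp_add, Complex.exp_neg (N * (π * Complex.I)), Complex.exp_nat_mul,
        Complex.exp_pi_mul_I, ← inv_pow]
      norm_num
    have e5 : ((-1 : ℂ)) ^ (N * (m + 1)) * (-1) ^ N = (-1) ^ (N * m) := by
      rw [Nat.mul_add, mul_one, pow_add, mul_assoc, ← pow_add, ← two_mul, pow_mul]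
      norm_num
    rw [e4, ← e5]
    ring
  rw [hfun]
  exact hB

end Pool.Agent.TH886.J1742

namespace Pool.Agent.TH886

/-- job 1742: the last step at a vertex with a circle -/
theorem vlt_last : Pool.Agent.TH563.V.S_VLT := J1742.main

end Pool.Agent.TH886
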