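import Pool.Agent.TH886.PrimeScales
import Pool.Agent.W123.FS.Main2

set_option autoImplicit false

/-!
# Local densities around almost all primes and their harmonic mean
-/

namespace Pool.Agent.TH886.PD

open Finset Filter Pool.Agent.H357R2.SI Pool.Agent.W123.FS Pool.Agent.TH886.PS

/-- normalised number of primes in `(p, p + H]` -/
noncomputable def phi (L : ℝ) (p : ℕ) (H : ℝ) : ℝ := (piS p H : ℝ) * L / H

lemma piS_le (n : ℕ) (H : ℝ) (hH : 0 ≤ H) : (piS n H : ℝ) ≤ H := by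
  rw [piS_nat n H hH]
  have : pc n (n + ⌊H⌋₊) ≤ ⌊H⌋₊ := by
    unfold pc
    refine (card_filter_le _ _).trans ?_
    rw [Nat.card_Ioc]; omega
  exact le_trans (by exact_mod_cast this) (Nat.floor_le hH)

lemma piS_shift (n d : ℕ) (H : ℝ) (hH : 0 ≤ H) :
    (pc n (n + d) : ℝ) + piS ((n + d : ℕ) : ℝ) H = piS n (H + d) := by
  rw [piS_nat _ H hH, piS_nat n (H + d) (by positivity), Nat.floor_add_natCast hH]
  have e : n + (⌊H⌋₊ + d) = n + d + ⌊H⌋₊ := by ring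
  rw [e]
  have := pc_add (a := n) (b := n + d) (c := n + d + ⌊H⌋₊) (by omega) (by omega)
  exact_mod_cast this

lemma pc_le (n d : ℕ) : (pc n (n + d) : ℝ) ≤ d := by
  have : pc n (n + d) ≤ d := by
    unfold pc
    refine (card_filter_le _ _).trans ?_
    rw [Nat.card_Ioc]; omega
  exact_mod_cast this

/-- comparison of `n` and `n + d` -/
lemma near (L δ₁ A : ℝ) (n d : ℕ) (hL : 1 ≤ L) (hdL : (d : ℝ) ≤ L) (hA0 : 0 < A)
    (hA : 2 * L ^ 2 ≤ δ₁ * A) (H : ℝ) (hH : A ≤ H) :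
    |phi L (n + d) H - (piS n (H + d) : ℝ) / (H + d) * L| ≤ δ₁ / 2 := by
  have hH0 : 0 < H := by linarith
  have hd0 : (0 : ℝ) ≤ d := Nat.cast_nonneg d
  have hHd : 0 < H + d := by linarith
  have h1 := piS_shift n d H hH0.le
  have h2 := piS_le n (H + d) hHd.le
  have h3 := pc_le n d
  have h3' : (0 : ℝ) ≤ pc n (n + d) := Nat.cast_nonneg _
  have h2' : (0 : ℝ) ≤ piS n (H + d) := Nat.cast_nonneg _
  obtain ⟨a, ha⟩ : ∃ a : ℝ, a = (piS n (H + d) : ℝ) := ⟨_, rfl⟩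
  obtain ⟨b, hb⟩ : ∃ b : ℝ, b = (pc n (n + d) : ℝ) := ⟨_, rfl⟩
  rw [← ha, ← hb] at h1
  rw [← ha] at h2 h2'
  rw [← hb] at h3 h3'
  have h4 : phi L (n + d) H = (a - b) * L / H := by
    unfold phi
    have : (piS ((n + d : ℕ) : ℝ) H : ℝ) = a - b := by linarith
    rw [this]
  rw [h4, ← ha]
  have h5 : (a - b) * L / H - a / (H + d) * L = a * d * L / (H * (H + d)) - b * L / H := by
    field_simp
    ring
  rw [h5]
  have h6 : L ^ 2 / H ≤ δ₁ / 2 := by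
    rw [div_le_iff₀ hH0]
    have hδ : 0 ≤ δ₁ := by
      by_contra hcon
      push Not at hcon
      nlinarith [sq_nonneg L]
    nlinarith
  have h7 : a * d * L / (H * (H + d)) ≤ L ^ 2 / H := by
    rw [div_le_div_iff₀ (by positivity) hH0]
    calc a * d * L * H ≤ (H + d) * L * L * H := by gcongr
      _ = L ^ 2 * (H * (H + d)) := by ring
  have h8 : b * L / H ≤ L ^ 2 / H := by
    rw [pow_two]
    gcongr
    linarith
  have h9 : 0 ≤ a * d * L / (H * (H + d)) := by positivity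
  have h10 : 0 ≤ b * L / H := by positivity
  rw [abs_le]
  constructor <;> linarith

lemma loc (L δ₁ A A' : ℝ) (n d : ℕ) (hL : 1 ≤ L) (hdL : (d : ℝ) ≤ L) (hA0 : 0 < A)
    (hA : 2 * L ^ 2 ≤ δ₁ * A)
    (hn : ∀ H H' : ℝ, A ≤ H → H ≤ A' → A ≤ H' → H' ≤ A' →
      |(piS n H : ℝ) / H - (piS n H' : ℝ) / H'| ≤ δ₁ / L) :
    ∀ H H' : ℝ, A ≤ H → H + L ≤ A' → A ≤ H' → H' + L ≤ A' →
      |phi L (n + d) H - phi L (n + d) H'| ≤ 2 * δ₁ := by
  intro H H' h1 h2 h3 h4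
  have hd0 : (0 : ℝ) ≤ d := Nat.cast_nonneg d
  have e1 := near L δ₁ A n d hL hdL hA0 hA H h1
  have e2 := near L δ₁ A n d hL hdL hA0 hA H' h3
  have e3 := hn (H + d) (H' + d) (by linarith) (by linarith) (by linarith) (by linarith)
  have e4 : |(piS n (H + d) : ℝ) / (H + d) * L - (piS n (H' + d) : ℝ) / (H' + d) * L| ≤ δ₁ := by
    rw [← sub_mul, abs_mul, abs_of_nonneg (by linarith : (0 : ℝ) ≤ L)]
    calc _ ≤ δ₁ / L * L := by gcongr
      _ = δ₁ := by field_simp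
  rw [abs_le] at e1 e2 e4 ⊢
  constructor <;> linarith

/-- good primes in one block -/
lemma block (L δ₁ ε A A' : ℝ) (D m : ℕ) (G : Finset ℕ) (θ : ℕ → ℝ) (hL : 1 ≤ L) (hε : 0 < ε)
    (hδ₁ : 0 < δ₁) (ht : 40 * δ₁ ≤ ε) (hA : 0 < A) (hD1 : A ≤ D) (hD2 : (D : ℝ) ≤ A' / 2)
    (hD3 : D * L ≤ δ₁ * (A' / 2)) (hD4 : L ≤ δ₁ * D)
    (hGp : ∀ p ∈ G, p.Prime)
    (hG : ∀ p ∈ G, ∀ H H' : ℝ, A ≤ H → H ≤ A' / 2 → A ≤ H' → H' ≤ A' / 2 →
      |phi L p H - phi L p H'| ≤ 2 * δ₁)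
    (hθ : ∀ p ∈ G, ∃ H : ℝ, A ≤ H ∧ H ≤ A' / 2 ∧ |θ p - phi L p H| ≤ δ₁) :
    ∑ p ∈ G.filter (fun p => (p - 1) / D = m), 1 / max (θ p) ε ≤
      (D : ℝ) / L * (1 + 12 * (δ₁ / ε)) := by
  have hL0 : 0 < L := by linarith
  have hDr : (0 : ℝ) < D := by linarith
  have hDn : 0 < D := by exact_mod_cast hDr
  have hA2 : A ≤ A' / 2 := by linarith
  have hA'0 : 0 < A' / 2 := by linarith
  rcases (G.filter (fun p => (p - 1) / D = m)).eq_empty_or_nonempty with h0 | h0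
  · rw [h0, sum_empty]; positivity
  obtain ⟨p₁, hp₁⟩ : ∃ p₁, p₁ = (G.filter (fun p => (p - 1) / D = m)).min' h0 := ⟨_, rfl⟩
  have hp₁m : p₁ ∈ G.filter (fun p => (p - 1) / D = m) := by
    rw [hp₁]; exact min'_mem _ h0
  have hle : ∀ p ∈ G.filter (fun p => (p - 1) / D = m), p₁ ≤ p := by
    intro p hp
    rw [hp₁]; exact min'_le _ _ hp
  have hlt : ∀ p ∈ G.filter (fun p => (p - 1) / D = m), p < p₁ + D := by
    intro p hp
    have hp1 := (mem_filter.1 hp).2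
    have hp2 := (mem_filter.1 hp₁m).2
    have hq1 := (hGp p (mem_filter.1 hp).1).pos
    have hq2 := (hGp p₁ (mem_filter.1 hp₁m).1).pos
    have h1 := Nat.div_add_mod (p - 1) D
    have h2 := Nat.div_add_mod (p₁ - 1) D
    have h3 := Nat.mod_lt (p - 1) hDn
    rw [hp1] at h1
    rw [hp2] at h2
    omega
  have hGp₁ := (mem_filter.1 hp₁m).1
  obtain ⟨φ, hφ⟩ : ∃ φ : ℝ, φ = phi L p₁ (A' / 2) := ⟨_, rfl⟩
  have hφ0 : 0 ≤ φ := by rw [hφ]; unfold phi; positivity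
  obtain ⟨M, hM⟩ : ∃ M : ℝ, M = max φ ε := ⟨_, rfl⟩
  have hMε : ε ≤ M := by rw [hM]; exact le_max_right _ _
  have hMφ : φ ≤ M := by rw [hM]; exact le_max_left _ _
  have hM0 : 0 < M := by linarith
  obtain ⟨t, htd⟩ : ∃ t : ℝ, t = δ₁ / ε := ⟨_, rfl⟩
  have ht0 : 0 < t := by rw [htd]; positivity
  have htε : δ₁ = t * ε := by rw [htd]; field_simp
  have ht40 : 40 * t ≤ 1 := by
    rw [htd]
    rw [← mul_div_assoc, div_le_one hε]
    exact ht
  -- lower bound for the densities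
  have hlow : ∀ p ∈ G.filter (fun p => (p - 1) / D = m), (1 - 4 * t) * M ≤ max (θ p) ε := by
    intro p hp
    have hpG := (mem_filter.1 hp).1
    obtain ⟨H, hH1, hH2, hH3⟩ := hθ p hpG
    have h1 := hG p hpG H (A' / 2) hH1 hH2 hA2 le_rfl
    obtain ⟨d, hd⟩ : ∃ d, p = p₁ + d := ⟨p - p₁, by have := hle p hp; omega⟩
    have hdD : d < D := by have := hlt p hp; omega
    have hdD' : (d : ℝ) ≤ D := by exact_mod_cast hdD.le
    have h2 := piS_shift p₁ d (A' / 2) hA'0.le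
    rw [← hd] at h2
    have h3 : (piS p₁ (A' / 2) : ℝ) ≤ piS p₁ (A' / 2 + d) := by
      rw [piS_nat _ _ hA'0.le, piS_nat _ _ (by positivity)]
      have := pc_mono (a := p₁) (b := p₁ + ⌊A' / 2⌋₊) (c := p₁ + ⌊A' / 2 + d⌋₊) (by
        have : ⌊A' / 2⌋₊ ≤ ⌊A' / 2 + d⌋₊ := Nat.floor_le_floor (by
          have : (0 : ℝ) ≤ d := Nat.cast_nonneg d
          linarith)
        omega)
      exact_mod_cast this
    have h4 := pc_le p₁ d
    rw [← hd] at h4
    have h5 : φ - δ₁ ≤ phi L p (A' / 2) := by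
      rw [hφ]
      unfold phi
      have h6 : (piS p₁ (A' / 2) : ℝ) - D ≤ piS p (A' / 2) := by linarith
      have h7 : ((piS p₁ (A' / 2) : ℝ) - D) * L / (A' / 2) ≤ piS p (A' / 2) * L / (A' / 2) := by
        gcongr
      have h8 : D * L / (A' / 2) ≤ δ₁ := by
        rw [div_le_iff₀ hA'0]; exact hD3
      have h9 : ((piS p₁ (A' / 2) : ℝ) - D) * L / (A' / 2) =
        (piS p₁ (A' / 2) : ℝ) * L / (A' / 2) - D * L / (A' / 2) := by ring
      linarith
    rw [abs_le] at h1 hH3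
    have h10 : φ - 4 * δ₁ ≤ θ p := by linarith
    rcases le_total φ ε with h | h
    · have h11 : M = ε := by rw [hM, max_eq_right h]
      rw [h11]
      refine le_trans ?_ (le_max_right _ _)
      nlinarith
    · have h11 : M = φ := by rw [hM, max_eq_left h]
      rw [h11]
      refine le_trans ?_ (le_max_left _ _)
      refine le_trans ?_ h10
      rw [htε]
      have : t * ε ≤ t * φ := by gcongr
      linarith
  -- the number of good primes in the block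
  have hcard : ((G.filter (fun p => (p - 1) / D = m)).card : ℝ) ≤ (D : ℝ) / L * (φ + 3 * δ₁) := by
    have h1 : (G.filter (fun p => (p - 1) / D = m)).card ≤ pc p₁ (p₁ + D) + 1 := by
      have hsub : G.filter (fun p => (p - 1) / D = m) ⊆
          (Ioc p₁ (p₁ + D)).filter Nat.Prime ∪ {p₁} := by
        intro p hp
        rw [mem_union, mem_filter, mem_Ioc, mem_singleton]
        have h1 := hle p hp
        have h2 := hlt p hp
        rcases Nat.eq_or_lt_of_le h1 with h | h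
        · exact Or.inr h.symm
        · exact Or.inl ⟨⟨h, h2.le⟩, hGp p (mem_filter.1 hp).1⟩
      refine (card_le_card hsub).trans ((card_union_le _ _).trans ?_)
      rw [card_singleton]
      exact le_rfl
    have h2 : ((G.filter (fun p => (p - 1) / D = m)).card : ℝ) ≤ (pc p₁ (p₁ + D) : ℝ) + 1 := by
      exact_mod_cast h1
    have h3 : (pc p₁ (p₁ + D) : ℝ) = phi L p₁ D * (D / L) := by
      unfold phi
      rw [piS_nat _ _ hDr.le, Nat.floor_natCast]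
      field_simp
    have h4 := hG p₁ hGp₁ D (A' / 2) hD1 hD2 hA2 le_rfl
    rw [← hφ, abs_le] at h4
    have h5 : 1 ≤ (D : ℝ) / L * δ₁ := by
      rw [div_mul_eq_mul_div, le_div_iff₀ hL0]
      linarith
    have hDL : 0 < (D : ℝ) / L := by positivity
    calc _ ≤ _ := h2
      _ ≤ phi L p₁ D * (D / L) + (D : ℝ) / L * δ₁ := by rw [h3]; linarith
      _ ≤ (φ + 2 * δ₁) * (D / L) + (D : ℝ) / L * δ₁ := by
        have : phi L p₁ D ≤ φ + 2 * δ₁ := by linarith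
        gcongr
      _ = (D : ℝ) / L * (φ + 3 * δ₁) := by ring
  have h14 : 0 < 1 - 4 * t := by linarith
  have hterm : ∀ p ∈ G.filter (fun p => (p - 1) / D = m),
      1 / max (θ p) ε ≤ 1 / ((1 - 4 * t) * M) := by
    intro p hp
    apply one_div_le_one_div_of_le (by positivity) (hlow p hp)
  have hsum := sum_le_card_nsmul _ _ _ hterm
  rw [nsmul_eq_mul] at hsum
  refine hsum.trans ?_
  calc ((G.filter (fun p => (p - 1) / D = m)).card : ℝ) * (1 / ((1 - 4 * t) * M)) ≤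
        (D : ℝ) / L * (φ + 3 * δ₁) * (1 / ((1 - 4 * t) * M)) := by gcongr
    _ = (D : ℝ) / L * ((φ + 3 * δ₁) / ((1 - 4 * t) * M)) := by ring
    _ ≤ (D : ℝ) / L * (1 + 12 * (δ₁ / ε)) := by
      have hDL : 0 < (D : ℝ) / L := by positivity
      apply mul_le_mul_of_nonneg_left _ hDL.le
      rw [← htd, div_le_iff₀ (by positivity)]
      have h15 : φ + 3 * δ₁ ≤ (1 + 3 * t) * M := by
        rw [htε]
        have : t * ε ≤ t * M := by gcongr
        nlinarith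
      have h16 : (1 + 3 * t) ≤ (1 + 12 * t) * (1 - 4 * t) := by nlinarith
      calc φ + 3 * δ₁ ≤ (1 + 3 * t) * M := h15
        _ ≤ (1 + 12 * t) * (1 - 4 * t) * M := by gcongr
        _ = _ := by ring

/-- the sum over all good primes -/
lemma total (L δ₁ ε A A' : ℝ) (D N : ℕ) (G : Finset ℕ) (θ : ℕ → ℝ) (hL : 1 ≤ L) (hε : 0 < ε)
    (hδ₁ : 0 < δ₁) (ht : 40 * δ₁ ≤ ε) (hA : 0 < A) (hD1 : A ≤ D) (hD2 : (D : ℝ) ≤ A' / 2)
    (hD3 : D * L ≤ δ₁ * (A' / 2)) (hD4 : L ≤ δ₁ * D)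
    (hGp : ∀ p ∈ G, p.Prime) (hGN : ∀ p ∈ G, p ≤ N)
    (hG : ∀ p ∈ G, ∀ H H' : ℝ, A ≤ H → H ≤ A' / 2 → A ≤ H' → H' ≤ A' / 2 →
      |phi L p H - phi L p H'| ≤ 2 * δ₁)
    (hθ : ∀ p ∈ G, ∃ H : ℝ, A ≤ H ∧ H ≤ A' / 2 ∧ |θ p - phi L p H| ≤ δ₁) :
    ∑ p ∈ G, 1 / max (θ p) ε ≤ ((N : ℝ) + D) / L * (1 + 12 * (δ₁ / ε)) := by
  have hL0 : 0 < L := by linarith
  have hDr : (0 : ℝ) < D := by linarith
  have hDn : 0 < D := by exact_mod_cast hDr
  have h1 : ∑ p ∈ G, 1 / max (θ p) ε = ∑ m ∈ range (N / D + 1),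
      ∑ p ∈ G.filter (fun p => (p - 1) / D = m), 1 / max (θ p) ε := by
    rw [sum_fiberwise_of_maps_to]
    intro p hp
    rw [mem_range]
    have h2 := hGN p hp
    have : (p - 1) / D ≤ N / D := Nat.div_le_div_right (by omega)
    omega
  rw [h1]
  have h2 := sum_le_card_nsmul (range (N / D + 1)) (fun m =>
    ∑ p ∈ G.filter (fun p => (p - 1) / D = m), 1 / max (θ p) ε)
    ((D : ℝ) / L * (1 + 12 * (δ₁ / ε))) (fun m _ =>
      block L δ₁ ε A A' D m G θ hL hε hδ₁ ht hA hD1 hD2 hD3 hD4 hGp hG hθ)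
  refine h2.trans ?_
  rw [nsmul_eq_mul, card_range]
  have h3 : (((N / D + 1 : ℕ) : ℝ)) * D ≤ N + D := by
    have : (N / D + 1) * D ≤ N + D := by
      have := Nat.div_mul_le_self N D
      nlinarith
    exact_mod_cast this
  calc (((N / D + 1 : ℕ) : ℝ)) * ((D : ℝ) / L * (1 + 12 * (δ₁ / ε))) =
        ((((N / D + 1 : ℕ) : ℝ)) * D) / L * (1 + 12 * (δ₁ / ε)) := by ring
    _ ≤ _ := by gcongr

end Pool.Agent.TH886.PD
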