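import Pool.Agent.TH886.Dens

set_option autoImplicit false

/-!
# Local densities around almost all primes and their harmonic mean: the main theorem
-/

namespace Pool.Agent.TH886.PD

open Finset Filter Pool.Agent.H357R2.SI Pool.Agent.W123.FS Pool.Agent.TH886.PS

lemma scales (L N : ℝ) (hL : 8 ≤ L) (R : ℕ) (T : ℕ → ℝ) (hT0 : L ^ 3 ≤ T 0)
    (hTi : ∀ i < R, L ^ 2 * T i ≤ T (i + 1)) (hTR : T R ≤ N) :
    ∀ i, i ≤ R → L ^ 3 ≤ T i ∧ T i ≤ N := by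
  have hL2 : 1 ≤ L ^ 2 := by nlinarith
  have hL3 : 0 < L ^ 3 := by positivity
  have h1 : ∀ i, i ≤ R → L ^ 3 ≤ T i := by
    intro i
    induction i with
    | zero => intro _; exact hT0
    | succ i ih =>
      intro hi
      have h1 := ih (by omega)
      have h2 := hTi i (by omega)
      have h3 : 0 ≤ T i := by linarith
      have h4 : T i ≤ L ^ 2 * T i := le_mul_of_one_le_left h3 hL2
      linarith
  have h2 : ∀ j, j ≤ R → T (R - j) ≤ N := by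
    intro j
    induction j with
    | zero => intro _; simpa using hTR
    | succ j ih =>
      intro hj
      have h2 := ih (by omega)
      have h3 := hTi (R - (j + 1)) (by omega)
      have e : R - (j + 1) + 1 = R - j := by omega
      rw [e] at h3
      have h4 : 0 ≤ T (R - (j + 1)) := by
        have := h1 (R - (j + 1)) (by omega)
        linarith
      have h5 : T (R - (j + 1)) ≤ L ^ 2 * T (R - (j + 1)) := le_mul_of_one_le_left h4 hL2
      linarith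
  intro i hi
  refine ⟨h1 i hi, ?_⟩
  have := h2 (R - i) (by omega)
  have e : R - (R - i) = i := by omega
  rwa [e] at this

lemma log_half (η N X : ℝ) (hη : 0 < η) (hN : (2 / η) ^ 2 ≤ N) (hN0 : 0 < N)
    (hX : η * N / 2 ≤ X) : Real.log N / 2 ≤ Real.log X := by
  have h1 : N ≤ X ^ 2 := by
    have h3 : N ≤ (η * N / 2) ^ 2 := by
      have h4 : (2 / η) ^ 2 * N ≤ N * N := by gcongr
      have h5 : (η * N / 2) ^ 2 = N * N / (2 / η) ^ 2 := by field_simp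
      rw [h5, le_div_iff₀ (by positivity)]
      linarith
    refine h3.trans ?_
    gcongr
  have h2 : Real.log N ≤ 2 * Real.log X := by
    calc Real.log N ≤ Real.log (X ^ 2) := Real.log_le_log hN0 h1
      _ = 2 * Real.log X := by rw [Real.log_pow]; norm_num
  linarith

lemma num1 (ε N L P : ℝ) (hε : 0 < ε) (hε1 : ε ≤ 1) (hN : 0 < N) (hL : 0 < L)
    (h : (1 - ε / 100) * N / L ≤ P) : 0 < P ∧ N / L ≤ (1 + ε / 50) * P ∧ N / L ≤ 51 / 50 * P := by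
  have h2 : (1 - ε / 100) * (N / L) ≤ P := by
    rw [← mul_div_assoc]; exact h
  have h3 : 0 < N / L := by positivity
  have h4 : 1 ≤ (1 + ε / 50) * (1 - ε / 100) := by nlinarith
  have h5 : N / L ≤ (1 + ε / 50) * P := by
    calc N / L ≤ ((1 + ε / 50) * (1 - ε / 100)) * (N / L) := by nlinarith
      _ = (1 + ε / 50) * ((1 - ε / 100) * (N / L)) := by ring
      _ ≤ (1 + ε / 50) * P := by gcongr
  have hP : 0 < P := by
    by_contra hcon
    push Not at hcon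
    have : (1 + ε / 50) * P ≤ 0 := mul_nonpos_of_nonneg_of_nonpos (by positivity) hcon
    linarith
  refine ⟨hP, h5, h5.trans ?_⟩
  gcongr
  linarith

lemma num2 (ε NL P : ℝ) (hε : 0 < ε) (hε1 : ε ≤ 1) (hP : 0 < P)
    (h : NL ≤ (1 + ε / 50) * P) :
    (1 + ε / 100) * NL * (1 + 3 / 20 * ε) ≤ (1 + ε / 5) * P := by
  calc (1 + ε / 100) * NL * (1 + 3 / 20 * ε) ≤
        (1 + ε / 100) * ((1 + ε / 50) * P) * (1 + 3 / 20 * ε) := by gcongr
    _ = ((1 + ε / 100) * (1 + ε / 50) * (1 + 3 / 20 * ε)) * P := by ring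
    _ ≤ (1 + ε / 5) * P := by
      apply mul_le_mul_of_nonneg_right _ hP.le
      have h3 : ε ^ 2 ≤ ε := by nlinarith
      have h4 : ε ^ 3 ≤ ε := by
        calc ε ^ 3 = ε ^ 2 * ε := by ring
          _ ≤ 1 * ε := by gcongr; nlinarith
          _ = ε := one_mul ε
      have e : (1 + ε / 100) * (1 + ε / 50) * (1 + 3 / 20 * ε) =
        1 + (1 / 100 + 1 / 50 + 3 / 20) * ε +
          (1 / 5000 + 3 / 2000 + 3 / 1000) * ε ^ 2 + 3 / 100000 * ε ^ 3 := by ring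
      rw [e]
      linarith

/-- the block length -/
lemma blocklen (L δ₁ ε A A' N : ℝ) (hL : 8 ≤ L) (hδ₁ : 0 < δ₁) (hδ1 : δ₁ ≤ 1) (hε : 0 < ε)
    (hLδ : 4 ≤ L * δ₁) (hLε : 200 ≤ L * ε) (hAL : L ^ 3 ≤ A) (hAA' : L ^ 2 * A ≤ A')
    (hA'N : A' ≤ N) (hN : 0 < N) :
    ∃ D : ℕ, A ≤ D ∧ (D : ℝ) ≤ A' / 2 ∧ D * L ≤ δ₁ * (A' / 2) ∧ L ≤ δ₁ * D ∧
      (D : ℝ) ≤ ε / 100 * N := by
  have hL0 : 0 < L := by linarith
  have hA0 : 0 < A := lt_of_lt_of_le (by positivity) hAL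
  have hA'0 : 0 < A' := lt_of_lt_of_le (by positivity) hAA'
  obtain ⟨D, hD⟩ : ∃ D : ℕ, D = ⌈A⌉₊ := ⟨_, rfl⟩
  have hD1 : A ≤ D := by rw [hD]; exact Nat.le_ceil A
  have hL3 : 1 ≤ L ^ 3 := one_le_pow₀ (by linarith)
  have hD2 : (D : ℝ) ≤ 2 * A := by
    have : (D : ℝ) < A + 1 := by rw [hD]; exact Nat.ceil_lt_add_one hA0.le
    linarith
  have hD3 : D * L ≤ δ₁ * (A' / 2) := by
    calc (D : ℝ) * L ≤ 2 * A * L := by gcongr
      _ = 4 * (A * L) / 2 := by ring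
      _ ≤ (L * δ₁) * (A * L) / 2 := by gcongr
      _ = δ₁ * (L ^ 2 * A) / 2 := by ring
      _ ≤ δ₁ * A' / 2 := by gcongr
      _ = _ := by ring
  have hD0 : (0 : ℝ) ≤ D := Nat.cast_nonneg D
  have hD4 : L ≤ δ₁ * D := by
    calc L = 1 * L := by ring
      _ ≤ (L * δ₁) * L := by
        apply mul_le_mul_of_nonneg_right _ hL0.le
        linarith
      _ = δ₁ * (L ^ 2 * 1) := by ring
      _ ≤ δ₁ * (L ^ 2 * L) := by gcongr; linarith
      _ = δ₁ * L ^ 3 := by ring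
      _ ≤ δ₁ * A := by gcongr
      _ ≤ δ₁ * D := by gcongr
  have h1 : δ₁ * (A' / 2) ≤ 1 * (A' / 2) := by gcongr
  have hD5 : (D : ℝ) ≤ A' / 2 := by
    have h1 : (D : ℝ) * 1 ≤ D * L := by gcongr; linarith
    linarith
  refine ⟨D, hD1, hD5, hD3, hD4, ?_⟩
  have h2 : (D : ℝ) * L ≤ N := by linarith
  have h4 : (D : ℝ) * 200 ≤ D * (L * ε) := by gcongr
  have h5 : (D : ℝ) * (L * ε) ≤ N * ε := by
    calc (D : ℝ) * (L * ε) = D * L * ε := by ring
      _ ≤ N * ε := by gcongr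
  linarith

open Classical in
/-- the number of exceptional primes -/
lemma few (ε C δ₀ L P : ℝ) (N X Y S : ℕ) (bad : ℕ → Prop) (hε : 0 < ε) (hε1 : ε ≤ 1)
    (hC0 : 0 < C) (hδ₀0 : 0 < δ₀) (hL0 : 0 < L) (hL : L = Real.log N)
    (hsq : Real.sqrt (2 * δ₀ * C) ≤ ε ^ 2 / 32)
    (hY : X + Y + 1 = N) (hXle : (X : ℝ) ≤ ε ^ 2 / 128 * N) (hX3 : (3 : ℝ) ≤ X)
    (hS2 : L / 4 ≤ S) (hSη : (S : ℝ) ≤ ε ^ 2 / 128 * N)
    (hlogX2 : L / 2 ≤ Real.log X)
    (hYN : (N : ℝ) / 2 ≤ Y)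
    (hbad : (((Ioc X (X + Y)).filter (fun n => bad n)).card : ℝ) ≤ δ₀ * N)
    (hm : ∑ n ∈ Finset.Ico (X + 1) (X + 1 + Y), ((pc n (n + S) : ℝ)) ^ 2 ≤ C * Y)
    (hpnt : (Nat.primeCounting (X + S) : ℝ) ≤
      (1 + 1) * ((X + S : ℕ) : ℝ) / Real.log ((X + S : ℕ) : ℝ))
    (hP0 : 0 < P) (hNL2 : (N : ℝ) / L ≤ 51 / 50 * P) (G : Finset ℕ)
    (hG : G = (Ioc (X + S) (X + Y)).filter
      (fun p => p.Prime ∧ ¬ ∀ n, n < p → p ≤ n + S → bad n)) :
    (((range N).filter (fun p => p.Prime ∧ p ∉ G)).card : ℝ) ≤ ε ^ 2 / 4 * P := by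
  have hN0 : (0 : ℝ) ≤ N := Nat.cast_nonneg N
  have hcardbad : (((Ioc X (X + Y)).filter (fun n => bad n)).card : ℝ) ≤ 2 * δ₀ * Y := by
    refine hbad.trans ?_
    calc δ₀ * N = 2 * δ₀ * (N / 2) := by ring
      _ ≤ 2 * δ₀ * Y := by gcongr
  have h3 := all_bad X Y S bad (2 * δ₀) C (by positivity) hC0.le hcardbad hm
  obtain ⟨Q, hQ⟩ : ∃ Q : ℝ, Q = (((Ioc (X + S) (X + Y)).filter (fun p => p.Prime ∧
    ∀ n, n < p → p ≤ n + S → bad n)).card : ℝ) := ⟨_, rfl⟩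
  rw [← hQ] at h3
  have hQ0 : 0 ≤ Q := by rw [hQ]; positivity
  have hYN' : (Y : ℝ) ≤ N := by
    have : Y ≤ N := by omega
    exact_mod_cast this
  have hQle : Q ≤ ε ^ 2 / 8 * (N / L) := by
    have h4 : L / 4 * Q ≤ ε ^ 2 / 32 * N := by
      calc L / 4 * Q ≤ S * Q := by gcongr
        _ ≤ Real.sqrt (2 * δ₀ * C) * Y := h3
        _ ≤ ε ^ 2 / 32 * N := by
          apply mul_le_mul hsq hYN' (Nat.cast_nonneg _) (by positivity)
    rw [← mul_div_assoc, le_div_iff₀ hL0]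
    linarith
  have hsmall : (((Nat.primeCounting (X + S) : ℕ) : ℝ)) ≤ ε ^ 2 / 16 * (N / L) := by
    have hS0 : (0 : ℝ) ≤ S := Nat.cast_nonneg S
    have h5 : L / 2 ≤ Real.log ((X + S : ℕ) : ℝ) := by
      refine hlogX2.trans (Real.log_le_log (by linarith) ?_)
      push_cast; linarith
    have h6 : (((X + S : ℕ) : ℝ)) ≤ 2 * (ε ^ 2 / 128) * N := by
      push_cast
      linarith
    calc (((Nat.primeCounting (X + S) : ℕ) : ℝ)) ≤
          (1 + 1) * ((X + S : ℕ) : ℝ) / Real.log ((X + S : ℕ) : ℝ) := hpnt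
      _ ≤ (1 + 1) * (2 * (ε ^ 2 / 128) * N) / (L / 2) := by gcongr
      _ = ε ^ 2 / 16 * (N / L) := by field_simp; ring
  have hsub : (range N).filter (fun p => p.Prime ∧ p ∉ G) ⊆
      (range (X + S + 1)).filter Nat.Prime ∪ (Ioc (X + S) (X + Y)).filter (fun p => p.Prime ∧
        ∀ n, n < p → p ≤ n + S → bad n) := by
    intro p hp
    rw [mem_filter, mem_range] at hp
    obtain ⟨hp1, hp2, hp3⟩ := hp
    rw [mem_union, mem_filter, mem_range, mem_filter, mem_Ioc]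
    by_cases h : p ≤ X + S
    · exact Or.inl ⟨by omega, hp2⟩
    · right
      refine ⟨⟨by omega, by omega⟩, hp2, ?_⟩
      by_contra hcon
      apply hp3
      rw [hG, mem_filter, mem_Ioc]
      exact ⟨⟨by omega, by omega⟩, hp2, hcon⟩
  have hc := (card_le_card hsub).trans (card_union_le _ _)
  have hpc : ((range (X + S + 1)).filter Nat.Prime).card = Nat.primeCounting (X + S) := by
    rw [Nat.primeCounting, Nat.primeCounting', Nat.count_eq_card_filter_range]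
  rw [hpc] at hc
  have hc' : (((range N).filter (fun p => p.Prime ∧ p ∉ G)).card : ℝ) ≤
      ((Nat.primeCounting (X + S) : ℕ) : ℝ) + Q := by
    rw [hQ]
    exact_mod_cast hc
  have hεP : 0 ≤ ε ^ 2 * P := by positivity
  calc _ ≤ _ := hc'
    _ ≤ ε ^ 2 / 16 * (N / L) + ε ^ 2 / 8 * (N / L) := by linarith
    _ = 3 * ε ^ 2 / 16 * (N / L) := by ring
    _ ≤ 3 * ε ^ 2 / 16 * (51 / 50 * P) := by gcongr
    _ = 153 / 800 * (ε ^ 2 * P) := by ring
    _ ≤ 1 / 4 * (ε ^ 2 * P) := by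
      apply mul_le_mul_of_nonneg_right _ hεP
      norm_num
    _ = ε ^ 2 / 4 * P := by ring

/-- the harmonic sum -/
lemma harmonic (L δ₁ ε A A' P : ℝ) (N : ℕ) (G : Finset ℕ) (θ : ℕ → ℝ) (hL : 8 ≤ L)
    (hε : 0 < ε) (hε1 : ε ≤ 1) (hδ₁ : δ₁ = ε ^ 2 / 80) (hLδ : 4 ≤ L * δ₁) (hLε : 200 ≤ L * ε)
    (hAL : L ^ 3 ≤ A) (hAA' : L ^ 2 * A ≤ A') (hA'N : A' ≤ N) (hN : (0 : ℝ) < N)
    (hGp : ∀ p ∈ G, p.Prime) (hGN : ∀ p ∈ G, p < N)
    (hG : ∀ p ∈ G, ∀ H H' : ℝ, A ≤ H → H ≤ A' / 2 → A ≤ H' → H' ≤ A' / 2 →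
      |phi L p H - phi L p H'| ≤ 2 * δ₁)
    (hP0 : 0 < P) (hNL : (N : ℝ) / L ≤ (1 + ε / 50) * P)
    (hexc : (((range N).filter (fun p => p.Prime ∧ p ∉ G)).card : ℝ) ≤ ε ^ 2 / 4 * P)
    (hθ : ∀ p ∈ G, ∃ H : ℝ, A ≤ H ∧ H ≤ A' / 2 ∧ |θ p - phi L p H| ≤ δ₁) :
    ∑ p ∈ (range N).filter Nat.Prime, 1 / max (θ p) ε ≤ (1 + ε) * P := by
  have hδ₁0 : 0 < δ₁ := by rw [hδ₁]; positivity
  have hε2 : ε ^ 2 ≤ ε := by nlinarith
  have hδ₁ε : 40 * δ₁ ≤ ε := by rw [hδ₁]; linarith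
  have hδ₁1 : δ₁ ≤ 1 := by linarith
  have hL0 : 0 < L := by linarith
  have hA0 : 0 < A := lt_of_lt_of_le (by positivity) hAL
  obtain ⟨D, hD1, hD2, hD3, hD4, hD5⟩ := blocklen L δ₁ ε A A' N hL hδ₁0 hδ₁1 hε hLδ hLε hAL
    hAA' hA'N hN
  have h1 := total L δ₁ ε A A' D N G θ (by linarith) hε hδ₁0 hδ₁ε hA0 hD1 hD2 hD3 hD4
    hGp (fun p hp => (hGN p hp).le) hG hθ
  have hfirst : ∑ p ∈ G, 1 / max (θ p) ε ≤ (1 + ε / 5) * P := by
    refine h1.trans ?_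
    have e1 : 12 * (δ₁ / ε) = 3 / 20 * ε := by rw [hδ₁]; field_simp; norm_num
    rw [e1]
    have h2 : ((N : ℝ) + D) / L ≤ (1 + ε / 100) * (N / L) := by
      rw [← mul_div_assoc]
      gcongr
      linarith
    refine le_trans ?_ (num2 ε (N / L) P hε hε1 hP0 hNL)
    gcongr
  have hsplit : ∑ p ∈ (range N).filter Nat.Prime, 1 / max (θ p) ε =
      ∑ p ∈ G, 1 / max (θ p) ε +
        ∑ p ∈ (range N).filter (fun p => p.Prime ∧ p ∉ G), 1 / max (θ p) ε := by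
    rw [← sum_filter_add_sum_filter_not ((range N).filter Nat.Prime) (fun p => p ∈ G)]
    congr 1
    · apply sum_congr _ (fun _ _ => rfl)
      ext p
      rw [mem_filter, mem_filter, mem_range]
      constructor
      · rintro ⟨_, h⟩; exact h
      · intro h; exact ⟨⟨hGN p h, hGp p h⟩, h⟩
    · apply sum_congr _ (fun _ _ => rfl)
      rw [filter_filter]
  rw [hsplit]
  have hsecond : ∑ p ∈ (range N).filter (fun p => p.Prime ∧ p ∉ G), 1 / max (θ p) ε ≤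
      ε / 4 * P := by
    have h2 := sum_le_card_nsmul ((range N).filter (fun p => p.Prime ∧ p ∉ G))
      (fun p => 1 / max (θ p) ε) (1 / ε) (fun p _ =>
        one_div_le_one_div_of_le hε (le_max_right _ _))
    rw [nsmul_eq_mul] at h2
    refine h2.trans ?_
    calc _ ≤ ε ^ 2 / 4 * P * (1 / ε) := by gcongr
      _ = ε / 4 * P := by field_simp
  have hεP : 0 < ε * P := by positivity
  calc _ ≤ (1 + ε / 5) * P + ε / 4 * P := add_le_add hfirst hsecond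
    _ = P + 9 / 20 * (ε * P) := by ring
    _ ≤ P + 1 * (ε * P) := by linarith
    _ = (1 + ε) * P := by ring

open Classical in
theorem core (ε : ℝ) (hε : 0 < ε) (hε1 : ε ≤ 1) : ∃ δ₁ : ℝ, 0 < δ₁ ∧ δ₁ ≤ ε / 80 ∧ ∃ K : ℕ,
    ∀ᶠ N : ℕ in atTop, ∀ (R : ℕ) (T : ℕ → ℝ), Real.log N ^ 3 ≤ T 0 →
      (∀ i < R, Real.log N ^ 2 * T i ≤ T (i + 1)) → T R ≤ N →
      ∃ B : Finset ℕ, B.card ≤ K ∧ ∀ i < R, i ∉ B → ∃ G : Finset ℕ,
        (∀ p ∈ G, p.Prime ∧ p < N ∧ ε ^ 2 / 128 * N ≤ p) ∧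
        ((((range N).filter (fun p => p.Prime ∧ p ∉ G)).card : ℝ) ≤
          ε ^ 2 / 4 * Nat.primeCounting N) ∧
        (∀ p ∈ G, ∀ H H' : ℝ, T i ≤ H → H ≤ T (i + 1) / 2 → T i ≤ H' → H' ≤ T (i + 1) / 2 →
          |phi (Real.log N) p H - phi (Real.log N) p H'| ≤ 2 * δ₁) ∧
        (∀ θ : ℕ → ℝ, (∀ p ∈ G, ∃ H : ℝ, T i ≤ H ∧ H ≤ T (i + 1) / 2 ∧
            |θ p - phi (Real.log N) p H| ≤ δ₁) →
          ∑ p ∈ (range N).filter Nat.Prime, 1 / max (θ p) ε ≤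
            (1 + ε) * Nat.primeCounting N) := by
  obtain ⟨C, hC, u0, hmom⟩ := Pool.Agent.W123.LR.second_moment_local (1 / 2) (by norm_num)
  obtain ⟨δ₁, hδ₁⟩ : ∃ δ₁ : ℝ, δ₁ = ε ^ 2 / 80 := ⟨_, rfl⟩
  have hδ₁0 : 0 < δ₁ := by rw [hδ₁]; positivity
  have hδ₁ε : δ₁ ≤ ε / 80 := by rw [hδ₁]; nlinarith
  obtain ⟨δ₀, hδ₀⟩ : ∃ δ₀ : ℝ, δ₀ = min δ₁ (ε ^ 4 / (2048 * C)) := ⟨_, rfl⟩
  have hC0 : 0 < C := by linarith
  have hδ₀0 : 0 < δ₀ := by rw [hδ₀]; positivity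
  have hδ₀1 : δ₀ ≤ δ₁ := by rw [hδ₀]; exact min_le_left _ _
  have hδ₀2 : δ₀ ≤ ε ^ 4 / (2048 * C) := by rw [hδ₀]; exact min_le_right _ _
  have hsq : Real.sqrt (2 * δ₀ * C) ≤ ε ^ 2 / 32 := by
    rw [Real.sqrt_le_left (by positivity)]
    rw [le_div_iff₀ (by positivity)] at hδ₀2
    nlinarith
  obtain ⟨K, hK⟩ := chain1 δ₀ hδ₀0 (by linarith)
  obtain ⟨X₁, hX₁, hpnt1⟩ := pnt 1 one_pos
  obtain ⟨X₂, hX₂, hpnt2⟩ := pnt (ε / 100) (by positivity)
  refine ⟨δ₁, hδ₁0, hδ₁ε, K, ?_⟩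
  obtain ⟨η, hη⟩ : ∃ η : ℝ, η = ε ^ 2 / 128 := ⟨_, rfl⟩
  have hη0 : 0 < η := by rw [hη]; positivity
  have hη1 : η ≤ 1 / 128 := by rw [hη]; nlinarith
  have hNr : Tendsto (fun N : ℕ => (N : ℝ)) atTop atTop := tendsto_natCast_atTop_atTop
  have hlogN : Tendsto (fun N : ℕ => Real.log (N : ℝ)) atTop atTop :=
    Real.tendsto_log_atTop.comp hNr
  have hNη : Tendsto (fun N : ℕ => η * (N : ℝ)) atTop atTop := hNr.const_mul_atTop hη0
  have hXf : Tendsto (fun N : ℕ => ⌊η * (N : ℝ)⌋₊) atTop atTop :=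
    tendsto_nat_floor_atTop.comp hNη
  have hlogη : ∀ᶠ N : ℕ in atTop, Real.log N ≤ η / 2 * N := by
    have h := (Real.isLittleO_log_id_atTop.comp_tendsto hNr).bound
      (by positivity : (0 : ℝ) < η / 2)
    filter_upwards [h, eventually_ge_atTop 1] with N hN hN1
    have hN1' : (1 : ℝ) ≤ N := by exact_mod_cast hN1
    simp only [Function.comp_def, id] at hN
    rwa [Real.norm_of_nonneg (Real.log_nonneg hN1'), Real.norm_of_nonneg (by linarith)] at hN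
  filter_upwards [hK, hlogN.eventually_ge_atTop (K + 4 / δ₁ + 200 / ε + 8),
    hXf.eventually_ge_atTop (X₁ + 3), eventually_ge_atTop (X₂ + u0 + u0 + 4),
    hNη.eventually_ge_atTop 4, hlogη, hNr.eventually_ge_atTop ((2 / η) ^ 2)]
    with N hN hL8 hXX hNX hNη4 hlogη hNη2
  intro R T hT0 hTi hTR
  obtain ⟨L, hL⟩ : ∃ L : ℝ, L = Real.log N := ⟨_, rfl⟩
  rw [← hL] at hL8 hT0 hTi hlogη ⊢
  have hK0 : (0 : ℝ) ≤ K := Nat.cast_nonneg K
  have q1 : 0 < 4 / δ₁ := by positivity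
  have q2 : 0 < 200 / ε := by positivity
  have hL8' : 8 ≤ L := by linarith
  have hLδ : 4 ≤ L * δ₁ := by
    have : 4 / δ₁ ≤ L := by linarith
    rwa [div_le_iff₀ hδ₁0] at this
  have hLε : 200 ≤ L * ε := by
    have : 200 / ε ≤ L := by linarith
    rwa [div_le_iff₀ hε] at this
  have hLK : (K : ℝ) ≤ L := by linarith
  clear hL8 q1 q2
  have hL0 : 0 < L := by linarith
  have hN0 : (0 : ℝ) < N := by
    have : 0 < N := by omega
    exact_mod_cast this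
  have hTall := scales L N hL8' R T hT0 hTi hTR
  have hL2K : (K : ℝ) ≤ L ^ 2 := by
    have : L * 1 ≤ L * L := by gcongr; linarith
    have e : L ^ 2 = L * L := by ring
    linarith
  obtain ⟨B, hB, hBi⟩ := hN R T (by
      rw [← hL]
      refine le_trans ?_ hT0
      calc (K : ℝ) * L ≤ L ^ 2 * L := by gcongr
        _ = L ^ 3 := by ring) (by
      intro i hi
      refine le_trans ?_ (hTi i hi)
      have h3 : 0 ≤ T i := by
        have := (hTall i (by omega)).1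
        have : 0 < L ^ 3 := by positivity
        linarith
      have h4 : (2 : ℝ) ≤ L ^ 2 := by
        have : (8 : ℝ) * 1 ≤ L * L := by gcongr; linarith
        have e : L ^ 2 = L * L := by ring
        linarith
      gcongr) hTR
  refine ⟨B, hB, ?_⟩
  intro i hi hiB
  have hbad := hBi i hi hiB
  obtain ⟨A, hA⟩ : ∃ A : ℝ, A = T i := ⟨_, rfl⟩
  obtain ⟨A', hA'⟩ : ∃ A' : ℝ, A' = T (i + 1) := ⟨_, rfl⟩
  have hAL : L ^ 3 ≤ A := by rw [hA]; exact (hTall i (by omega)).1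
  have hAA' : L ^ 2 * A ≤ A' := by rw [hA, hA']; exact hTi i hi
  have hA'N : A' ≤ N := by rw [hA']; exact (hTall (i + 1) (by omega)).2
  rw [← hA, ← hA'] at hbad ⊢
  clear hTall hBi hB hTi hT0 hTR hN hK
  have hA0 : 0 < A := lt_of_lt_of_le (by positivity) hAL
  have hA'0 : 0 < A' := lt_of_lt_of_le (by positivity) hAA'
  -- the parameters
  obtain ⟨X, hX⟩ : ∃ X : ℕ, X = ⌊η * (N : ℝ)⌋₊ := ⟨_, rfl⟩
  rw [← hX] at hXX
  have hXle : (X : ℝ) ≤ η * N := by rw [hX]; exact Nat.floor_le (by positivity)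
  have hXge : η * N - 1 < X := by
    have := Nat.lt_floor_add_one (η * (N : ℝ))
    rw [← hX] at this
    linarith
  have hXN : (X : ℝ) ≤ N / 128 := by
    refine hXle.trans ?_
    calc η * N ≤ 1 / 128 * N := by gcongr
      _ = N / 128 := by ring
  have hX3 : (3 : ℝ) ≤ X := by
    have : 3 ≤ X := by omega
    exact_mod_cast this
  have hXNn : 128 * X ≤ N := by
    have : (128 : ℝ) * X ≤ N := by linarith
    exact_mod_cast this
  obtain ⟨Y, hY⟩ : ∃ Y, X + Y + 1 = N := ⟨N - 1 - X, by omega⟩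
  have hYr : (X : ℝ) + Y + 1 = N := by exact_mod_cast hY
  have hYN : (N : ℝ) / 2 ≤ Y := by linarith
  obtain ⟨S, hS⟩ : ∃ S : ℕ, S = ⌊Real.log X⌋₊ := ⟨_, rfl⟩
  have hlogX0 : 0 < Real.log X := Real.log_pos (by linarith)
  have hlogXL : Real.log X ≤ L := by
    rw [hL]; exact Real.log_le_log (by linarith) (by linarith)
  have hlogX2 : L / 2 ≤ Real.log X := by
    rw [hL]
    exact log_half η N X hη0 hNη2 hN0 (by linarith)
  have hS1 : (S : ℝ) ≤ Real.log X := by rw [hS]; exact Nat.floor_le hlogX0.le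
  have hS2 : L / 4 ≤ S := by
    have : Real.log X < (S : ℝ) + 1 := by rw [hS]; exact Nat.lt_floor_add_one _
    linarith
  have hSL : (S : ℝ) ≤ L := hS1.trans hlogXL
  have hLη : L ≤ η * N := by
    refine hlogη.trans ?_
    have : 0 < η * N := by positivity
    linarith
  have hSη : (S : ℝ) ≤ η * N := hSL.trans hLη
  have hSY : S ≤ Y := by
    have : (S : ℝ) ≤ Y := by
      have : η * N ≤ N / 128 := by
        calc η * N ≤ 1 / 128 * N := by gcongr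
          _ = N / 128 := by ring
      linarith
    exact_mod_cast this
  obtain ⟨bad, hbadd⟩ : ∃ bad : ℕ → Prop, ∀ n, bad n ↔ n ∈ badset δ₀ N A A' :=
    ⟨fun n => n ∈ badset δ₀ N A A', fun _ => Iff.rfl⟩
  obtain ⟨G, hG⟩ : ∃ G : Finset ℕ, G = (Ioc (X + S) (X + Y)).filter
    (fun p => p.Prime ∧ ¬ ∀ n, n < p → p ≤ n + S → bad n) := ⟨_, rfl⟩
  have hGp : ∀ p ∈ G, p.Prime := by
    intro p hp
    rw [hG, mem_filter] at hp
    exact hp.2.1
  have hGN : ∀ p ∈ G, p < N := by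
    intro p hp
    rw [hG, mem_filter, mem_Ioc] at hp
    omega
  have hGη : ∀ p ∈ G, η * N ≤ p := by
    intro p hp
    rw [hG, mem_filter, mem_Ioc] at hp
    have : X + 1 ≤ p := by omega
    have h : (X : ℝ) + 1 ≤ p := by exact_mod_cast this
    linarith
  have hGphi : ∀ p ∈ G, ∀ H H' : ℝ, A ≤ H → H ≤ A' / 2 → A ≤ H' → H' ≤ A' / 2 →
      |phi L p H - phi L p H'| ≤ 2 * δ₁ := by
    intro p hp H H' h1 h2 h3 h4
    rw [hG, mem_filter, mem_Ioc] at hp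
    obtain ⟨⟨hp1, hp2⟩, hp3, hp4⟩ := hp
    push Not at hp4
    obtain ⟨n, hn1, hn2, hn3⟩ := hp4
    rw [hbadd] at hn3
    unfold badset at hn3
    rw [mem_filter, not_and, mem_range, not_not, ← hL] at hn3
    have hn4 := hn3 (by omega)
    obtain ⟨d, hd⟩ : ∃ d, p = n + d := ⟨p - n, by omega⟩
    have hdS : d ≤ S := by omega
    have hdL : (d : ℝ) ≤ L := by
      have : (d : ℝ) ≤ S := by exact_mod_cast hdS
      linarith
    have hL3 : L ≤ L ^ 3 / 8 := by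
      have : (8 : ℝ) * 1 ≤ L * L := by gcongr; linarith
      calc L = L * (8 * 1) / 8 := by ring
        _ ≤ L * (L * L) / 8 := by gcongr
        _ = L ^ 3 / 8 := by ring
    have hL2A : 8 * A ≤ L ^ 2 * A := by
      have : (8 : ℝ) * 1 ≤ L * L := by gcongr; linarith
      have e : L ^ 2 = L * L := by ring
      rw [e]
      gcongr
      linarith
    have hLA : L ≤ A' / 2 := by linarith
    rw [hd]
    have hδL : δ₀ / L ≤ δ₁ / L := by gcongr
    have hcond : 2 * L ^ 2 ≤ δ₁ * A := by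
      calc 2 * L ^ 2 ≤ 4 * L ^ 2 := by
            have : 0 ≤ L ^ 2 := by positivity
            linarith
        _ ≤ (L * δ₁) * L ^ 2 := by gcongr
        _ = δ₁ * L ^ 3 := by ring
        _ ≤ δ₁ * A := by gcongr
    exact loc L δ₁ A A' n d (by linarith) hdL hA0 hcond
      (fun x y a b c e => (hn4 x y a b c e).trans hδL)
      H H' h1 (by linarith) h3 (by linarith)
  -- the number of primes
  obtain ⟨P, hP⟩ : ∃ P : ℝ, P = (Nat.primeCounting N : ℝ) := ⟨_, rfl⟩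
  have hpN := (hpnt2 N (by omega)).1
  rw [← hL, ← hP] at hpN
  rw [← hP]
  obtain ⟨hP0, hNL, hNL2⟩ := num1 ε N L P hε hε1 hN0 hL0 hpN
  have hcardbad : (((Ioc X (X + Y)).filter (fun n => bad n)).card : ℝ) ≤ δ₀ * N := by
    have h1 : (Ioc X (X + Y)).filter (fun n => bad n) ⊆ badset δ₀ N A A' := by
      intro n hn
      rw [mem_filter, hbadd] at hn
      exact hn.2
    have h2 : (((Ioc X (X + Y)).filter (fun n => bad n)).card : ℝ) ≤
        ((badset δ₀ N A A').card : ℝ) := by exact_mod_cast card_le_card h1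
    exact h2.trans hbad
  have hYX : (X : ℝ) ^ ((1 : ℝ) / 2) ≤ Y := by
    calc (X : ℝ) ^ ((1 : ℝ) / 2) ≤ (X : ℝ) ^ (1 : ℝ) :=
          Real.rpow_le_rpow_of_exponent_le (by linarith) (by norm_num)
      _ = X := Real.rpow_one _
      _ ≤ Y := by linarith
  have hm := hmom X Y S (by omega) hYX (by omega) hSY hS1
  have hexc := few ε C δ₀ L P N X Y S bad hε hε1 hC0 hδ₀0 hL0 hL hsq hY (hη ▸ hXle) hX3 hS2
    (hη ▸ hSη) hlogX2 hYN hcardbad hm (hpnt1 (X + S) (by omega)).2 hP0 hNL2 G hG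
  refine ⟨G, ?_, hexc, hGphi, ?_⟩
  · intro p hp
    refine ⟨hGp p hp, hGN p hp, ?_⟩
    rw [← hη]
    exact hGη p hp
  · intro θ hθ
    exact harmonic L δ₁ ε A A' P N G θ hL8' hε hε1 hδ₁ hLδ hLε hAL hAA' hA'N hN0 hGp hGN hGphi
      hP0 hNL hexc hθ

end Pool.Agent.TH886.PD
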