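import Pool.Agent.TH886.DensPow

set_option autoImplicit false

/-!
# Local densities around almost all primes and integers: windows of powers of `log`
-/

namespace Pool.Agent.TH886.PD

open Finset Filter Pool.Agent.H357R2.SI Pool.Agent.W123.FS Pool.Agent.TH886.PS

lemma win_log (c L l M : ℝ) (hc : 4 ≤ c) (hM : 1 ≤ M) (hL : 8 ≤ L) (hl1 : L / 2 ≤ l)
    (hl2 : l ≤ L) (b : ℝ) (hb1 : 3 / 2 * c ≤ b) (hb2 : b ≤ M * (3 / 2 * c)) :
    L ^ c ≤ l ^ b ∧ l ^ b ≤ L ^ (2 * M * c) / 2 := by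
  have hL0 : 0 < L := by linarith
  have hl1' : 1 ≤ l := by linarith
  have hl0 : 0 < l := by linarith
  constructor
  · calc L ^ c ≤ (l ^ (3 / 2 : ℝ)) ^ c := by
          apply Real.rpow_le_rpow hL0.le _ (by linarith)
          -- `L ≤ l ^ (3/2)`
          have h1 : (L / 2) ^ (3 / 2 : ℝ) ≤ l ^ (3 / 2 : ℝ) :=
            Real.rpow_le_rpow (by linarith) hl1 (by norm_num)
          refine le_trans ?_ h1
          have h2 : (L / 2) ^ (3 / 2 : ℝ) = (L / 2) * (L / 2) ^ (1 / 2 : ℝ) := by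
            have : (3 / 2 : ℝ) = 1 + 1 / 2 := by norm_num
            rw [this, Real.rpow_add (by linarith), Real.rpow_one]
          rw [h2]
          have h3 : (2 : ℝ) ≤ (L / 2) ^ (1 / 2 : ℝ) := by
            have h4 : (2 : ℝ) = ((4 : ℝ)) ^ (1 / 2 : ℝ) := by
              rw [show (4 : ℝ) = 2 ^ (2 : ℝ) by norm_num, ← Real.rpow_mul (by norm_num : (0 : ℝ) ≤ 2)]
              norm_num
            calc (2 : ℝ) = (4 : ℝ) ^ (1 / 2 : ℝ) := h4
              _ ≤ (L / 2) ^ (1 / 2 : ℝ) :=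
                Real.rpow_le_rpow (by norm_num) (by linarith) (by norm_num)
          calc L = L / 2 * 2 := by ring
            _ ≤ L / 2 * (L / 2) ^ (1 / 2 : ℝ) := by gcongr
      _ = l ^ (3 / 2 * c) := by rw [← Real.rpow_mul hl0.le]
      _ ≤ l ^ b := Real.rpow_le_rpow_of_exponent_le hl1' hb1
  · have hMc : 4 ≤ M * c := by nlinarith
    calc l ^ b ≤ l ^ (M * (3 / 2 * c)) := Real.rpow_le_rpow_of_exponent_le hl1' hb2
      _ ≤ L ^ (M * (3 / 2 * c)) := Real.rpow_le_rpow hl0.le hl2 (by positivity)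
      _ ≤ L ^ (2 * M * c) / 2 := by
        rw [le_div_iff₀ (by norm_num)]
        have h1 : (2 : ℝ) ≤ L ^ (M * c / 2) := by
          calc (2 : ℝ) ≤ L := by linarith
            _ = L ^ (1 : ℝ) := (Real.rpow_one _).symm
            _ ≤ L ^ (M * c / 2) := Real.rpow_le_rpow_of_exponent_le (by linarith) (by linarith)
        calc L ^ (M * (3 / 2 * c)) * 2 ≤ L ^ (M * (3 / 2 * c)) * L ^ (M * c / 2) := by gcongr
          _ = L ^ (2 * M * c) := by
            rw [← Real.rpow_add hL0]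
            congr 1
            ring

open Classical in
/-- windows `[(log n) ^ a, (log n) ^ (M a)]` -/
theorem log_windows (M δ a₀ : ℝ) (hM : 1 < M) (hδ : 0 < δ) (hδ1 : δ ≤ 1) :
    ∃ A : ℝ, ∀ᶠ N : ℕ in atTop, ∃ a : ℝ, a₀ ≤ a ∧ 1 ≤ a ∧ a ≤ A ∧
      (((range N).filter (fun n : ℕ => ¬ ∀ b : ℝ, a ≤ b → b ≤ M * a →
        |psi n (Real.log n ^ b) - psi n (Real.log n ^ a)| ≤ δ)).card : ℝ) ≤ δ * N ∧
      (((range N).filter (fun p : ℕ => p.Prime ∧ ¬ ∀ b : ℝ, a ≤ b → b ≤ M * a →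
        |psi p (Real.log p ^ b) - psi p (Real.log p ^ a)| ≤ δ)).card : ℝ) ≤
          δ * Nat.primeCounting N ∧
      ∑ p ∈ (range N).filter Nat.Prime, 1 / max (psi p (Real.log p ^ a)) δ ≤
        (1 + δ) * Nat.primeCounting N := by
  obtain ⟨K, hK⟩ := core2 δ hδ hδ1
  obtain ⟨η, hη⟩ : ∃ η : ℝ, η = δ ^ 2 / 128 := ⟨_, rfl⟩
  have hη0 : 0 < η := by rw [hη]; positivity
  have hδ2 : δ ^ 2 ≤ δ := by nlinarith
  have hη1 : η ≤ δ / 128 := by rw [hη]; linarith
  obtain ⟨K', hK'⟩ := chain1 (δ / 2) (by positivity) (by linarith)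
  obtain ⟨R, hR⟩ : ∃ R : ℕ, R = K + K' + 1 := ⟨_, rfl⟩
  obtain ⟨c₀, hc₀⟩ : ∃ c₀ : ℝ, c₀ = max a₀ 4 := ⟨_, rfl⟩
  have hc₀4 : 4 ≤ c₀ := by rw [hc₀]; exact le_max_right _ _
  have hc₀a : a₀ ≤ c₀ := by rw [hc₀]; exact le_max_left _ _
  have hM2 : 1 ≤ 2 * M := by linarith
  have hci : ∀ i : ℕ, c₀ ≤ c₀ * (2 * M) ^ i := by
    intro i
    have : 1 ≤ (2 * M) ^ i := one_le_pow₀ hM2
    nlinarith
  refine ⟨3 / 2 * (c₀ * (2 * M) ^ R), ?_⟩
  have hNr : Tendsto (fun N : ℕ => (N : ℝ)) atTop atTop := tendsto_natCast_atTop_atTop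
  have hlogN : Tendsto (fun N : ℕ => Real.log (N : ℝ)) atTop atTop :=
    Real.tendsto_log_atTop.comp hNr
  have hTR : ∀ᶠ N : ℕ in atTop, Real.log N ^ (c₀ * (2 * M) ^ R) ≤ N := by
    have h := ((isLittleO_log_rpow_rpow_atTop (c₀ * (2 * M) ^ R) one_pos).comp_tendsto hNr).bound
      one_pos
    filter_upwards [h, eventually_ge_atTop 1] with X hX hX1
    have hX1' : (1 : ℝ) ≤ X := by exact_mod_cast hX1
    have hl := Real.log_nonneg hX1'
    simp only [Function.comp_def, one_mul, Real.rpow_one] at hX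
    rwa [Real.norm_of_nonneg (by positivity), Real.norm_of_nonneg (by positivity)] at hX
  filter_upwards [hK, hK', hTR, hlogN.eventually_ge_atTop (8 + 2 * Real.log (1 / η) + K'),
    eventually_ge_atTop 3, (hNr.const_mul_atTop hδ).eventually_ge_atTop 4,
    (hNr.const_mul_atTop hη0).eventually_ge_atTop 3]
    with N hN hN' hTR hLbig hN3 hδN hηN3
  obtain ⟨L, hL⟩ : ∃ L : ℝ, L = Real.log N := ⟨_, rfl⟩
  rw [← hL] at hTR hLbig
  have hlogη : 0 ≤ Real.log (1 / η) := by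
    apply Real.log_nonneg
    rw [le_div_iff₀ hη0]
    linarith
  have hK'0 : (0 : ℝ) ≤ K' := Nat.cast_nonneg K'
  have hL8 : 8 ≤ L := by linarith
  have hL0 : 0 < L := by linarith
  have hL1 : 1 ≤ L := by linarith
  have hN0 : (0 : ℝ) < N := by
    have : 0 < N := by omega
    exact_mod_cast this
  obtain ⟨T, hT⟩ : ∃ T : ℕ → ℝ, T = fun i : ℕ => L ^ (c₀ * (2 * M) ^ i) := ⟨_, rfl⟩
  have hT0 : L ^ 3 ≤ T 0 := by
    rw [hT]
    simp only [pow_zero, mul_one]
    rw [← Real.rpow_natCast]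
    exact Real.rpow_le_rpow_of_exponent_le hL1 (by push_cast; linarith)
  have hTi : ∀ i < R, L ^ 2 * T i ≤ T (i + 1) := by
    intro i _
    rw [hT]
    simp only
    rw [← Real.rpow_natCast, ← Real.rpow_add hL0]
    apply Real.rpow_le_rpow_of_exponent_le hL1
    have h1 := hci i
    have e : c₀ * (2 * M) ^ (i + 1) = 2 * M * (c₀ * (2 * M) ^ i) := by ring
    rw [e]
    push_cast
    nlinarith
  obtain ⟨B, hB, hBi⟩ := hN R T (by rw [← hL]; exact hT0) (by rw [← hL]; exact hTi)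
    (by rw [hT]; exact hTR)
  obtain ⟨B', hB', hBi'⟩ := hN' R T (by
      rw [← hL]
      refine le_trans ?_ hT0
      have h1 : (K' : ℝ) ≤ L := by linarith
      have h2 : (K' : ℝ) * L ≤ L * L := by gcongr
      have h3 : L * L * 1 ≤ L * L * L := by gcongr
      have e : L ^ 3 = L * L * L := by ring
      linarith) (by
      intro i hi
      refine le_trans ?_ (hTi i hi)
      have h3 : 0 ≤ T i := by rw [hT]; positivity
      have h4 : (2 : ℝ) ≤ L ^ 2 := by
        have : (8 : ℝ) * 1 ≤ L * L := by gcongr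
        have e : L ^ 2 = L * L := by ring
        linarith
      gcongr) (by rw [hT]; exact hTR)
  obtain ⟨i, hi1, hi2⟩ : ∃ i ∈ Finset.range R, i ∉ B ∪ B' := by
    apply Finset.exists_mem_notMem_of_card_lt_card
    have := card_union_le B B'
    rw [Finset.card_range]; omega
  rw [Finset.mem_range] at hi1
  rw [mem_union, not_or] at hi2
  obtain ⟨G, hG1, hG2, hG3, hG4⟩ := hBi i hi1 hi2.1
  have hbad := hBi' i hi1 hi2.2
  obtain ⟨c, hc⟩ : ∃ c : ℝ, c = c₀ * (2 * M) ^ i := ⟨_, rfl⟩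
  have hc4 : 4 ≤ c := by rw [hc]; exact hc₀4.trans (hci i)
  have hca : a₀ ≤ c := by rw [hc]; exact hc₀a.trans (hci i)
  have hTi' : T i = L ^ c := by rw [hT, hc]
  have hTi1 : T (i + 1) = L ^ (2 * M * c) := by
    rw [hT]
    simp only
    congr 1
    rw [hc]; ring
  -- logarithms
  have hlog : ∀ n : ℕ, n < N → η * N ≤ n → L / 2 ≤ Real.log n ∧ Real.log n ≤ L := by
    intro n hn1 hn2
    have hn0 : (0 : ℝ) < n := lt_of_lt_of_le (by positivity) hn2
    constructor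
    · have h1 : Real.log (η * N) ≤ Real.log n := Real.log_le_log (by positivity) hn2
      rw [Real.log_mul hη0.ne' hN0.ne', ← hL] at h1
      have h2 : Real.log (1 / η) = -Real.log η := by rw [one_div, Real.log_inv]
      linarith
    · rw [hL]
      apply Real.log_le_log hn0
      exact_mod_cast hn1.le
  have hwin : ∀ n : ℕ, n < N → η * N ≤ n → ∀ b : ℝ, 3 / 2 * c ≤ b → b ≤ M * (3 / 2 * c) →
      T i ≤ Real.log n ^ b ∧ Real.log n ^ b ≤ T (i + 1) / 2 := by
    intro n hn1 hn2 b hb1 hb2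
    obtain ⟨h1, h2⟩ := hlog n hn1 hn2
    rw [hTi', hTi1]
    exact win_log c L (Real.log n) M hc4 hM.le hL8 h1 h2 b hb1 hb2
  have hMa : 3 / 2 * c ≤ M * (3 / 2 * c) := by nlinarith
  have hT10 : 0 < T (i + 1) := by rw [hTi1]; positivity
  refine ⟨3 / 2 * c, by linarith, by linarith, ?_, ?_, ?_, ?_⟩
  · have h1 : c ≤ c₀ * (2 * M) ^ R := by
      rw [hc]
      have : (2 * M) ^ i ≤ (2 * M) ^ R := pow_le_pow_right₀ hM2 hi1.le
      gcongr
    linarith
  · have hsub : (range N).filter (fun n : ℕ => ¬ ∀ b : ℝ, 3 / 2 * c ≤ b → b ≤ M * (3 / 2 * c) →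
        |psi n (Real.log n ^ b) - psi n (Real.log n ^ (3 / 2 * c))| ≤ δ) ⊆
        badset (δ / 2) N (T i) (T (i + 1)) ∪ range ⌈η * N⌉₊ := by
      intro n hn
      rw [mem_filter, mem_range] at hn
      rw [mem_union, mem_range]
      by_contra hnot
      rw [not_or] at hnot
      obtain ⟨hnb, hnr⟩ := hnot
      have hnge : η * N ≤ n := Nat.ceil_le.mp (Nat.le_of_not_lt hnr)
      apply hn.2
      intro b hb1 hb2
      unfold badset at hnb
      rw [mem_filter, not_and, mem_range, not_not] at hnb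
      obtain ⟨w1, w2⟩ := hwin n hn.1 hnge b hb1 hb2
      obtain ⟨w3, w4⟩ := hwin n hn.1 hnge (3 / 2 * c) le_rfl hMa
      have h5 := hnb hn.1 (Real.log n ^ b) (Real.log n ^ (3 / 2 * c)) w1 (by linarith) w3
        (by linarith)
      obtain ⟨l1, l2⟩ := hlog n hn.1 hnge
      have hl0 : 0 < Real.log n := by linarith
      unfold psi
      have e : (piS n (Real.log n ^ b) : ℝ) * Real.log n / Real.log n ^ b -
          (piS n (Real.log n ^ (3 / 2 * c)) : ℝ) * Real.log n / Real.log n ^ (3 / 2 * c) =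
          ((piS n (Real.log n ^ b) : ℝ) / Real.log n ^ b -
          (piS n (Real.log n ^ (3 / 2 * c)) : ℝ) / Real.log n ^ (3 / 2 * c)) * Real.log n := by
        ring
      rw [e, abs_mul, abs_of_pos hl0]
      rw [← hL] at h5
      calc _ ≤ δ / 2 / L * L := by
            apply mul_le_mul h5 l2 hl0.le (by positivity)
        _ = δ / 2 := by field_simp
        _ ≤ δ := by linarith
    have h1 := (card_le_card hsub).trans (card_union_le _ _)
    rw [card_range] at h1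
    have h2 : (((range N).filter (fun n : ℕ => ¬ ∀ b : ℝ, 3 / 2 * c ≤ b → b ≤ M * (3 / 2 * c) →
        |psi n (Real.log n ^ b) - psi n (Real.log n ^ (3 / 2 * c))| ≤ δ)).card : ℝ) ≤
        (badset (δ / 2) N (T i) (T (i + 1))).card + ⌈η * N⌉₊ := by exact_mod_cast h1
    have h3 : (⌈η * (N : ℝ)⌉₊ : ℝ) < η * N + 1 := Nat.ceil_lt_add_one (by positivity)
    have h4 : η * N ≤ δ / 128 * N := by gcongr
    linarith
  · refine le_trans ?_ hG2
    have hsub : (range N).filter (fun p : ℕ => p.Prime ∧ ¬ ∀ b : ℝ, 3 / 2 * c ≤ b →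
        b ≤ M * (3 / 2 * c) →
          |psi p (Real.log p ^ b) - psi p (Real.log p ^ (3 / 2 * c))| ≤ δ) ⊆
        (range N).filter (fun p => p.Prime ∧ p ∉ G) := by
      intro p hp
      rw [mem_filter] at hp ⊢
      refine ⟨hp.1, hp.2.1, ?_⟩
      intro hpG
      apply hp.2.2
      intro b hb1 hb2
      obtain ⟨-, g2, g3⟩ := hG1 p hpG
      rw [← hη] at g3
      obtain ⟨w1, w2⟩ := hwin p g2 g3 b hb1 hb2
      obtain ⟨w3, w4⟩ := hwin p g2 g3 (3 / 2 * c) le_rfl hMa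
      exact hG3 p hpG _ _ w1 w2 w3 w4
    exact_mod_cast card_le_card hsub
  · apply hG4
    intro p hpG
    obtain ⟨-, g2, g3⟩ := hG1 p hpG
    rw [← hη] at g3
    obtain ⟨w3, w4⟩ := hwin p g2 g3 (3 / 2 * c) le_rfl hMa
    exact ⟨_, w3, w4, rfl⟩

end Pool.Agent.TH886.PD
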