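import Pool.Agent.TH886.DensCore
import Pool.Agent.H932R4.MO.Final

set_option autoImplicit false

/-!
# Local densities around almost all primes: windows of powers
-/

namespace Pool.Agent.TH886.PD

open Finset Filter Pool.Agent.H357R2.SI Pool.Agent.W123.FS Pool.Agent.TH886.PS

/-- the normalised number of primes in `(p, p + H]` -/
noncomputable def psi (p : ℕ) (H : ℝ) : ℝ := (piS p H : ℝ) * Real.log p / H

/-- uniformly few primes in long intervals -/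
lemma sparse (c : ℝ) (hc : 0 < c) : ∃ H₀ : ℝ, 1 ≤ H₀ ∧ ∀ (p : ℕ) (H : ℝ), H₀ ≤ H →
    (piS p H : ℝ) ≤ c * H := by
  obtain ⟨Y₀, hY₀, hbt⟩ := Pool.Agent.H932R4.MO.bt3
  refine ⟨Y₀ + Real.exp (3 / c) + 2, by
    have : 0 < Real.exp (3 / c) := Real.exp_pos _
    have h : (0 : ℝ) ≤ Y₀ := Nat.cast_nonneg _
    linarith, ?_⟩
  intro p H hH
  have he : 0 < Real.exp (3 / c) := Real.exp_pos _
  have hY : (0 : ℝ) ≤ Y₀ := Nat.cast_nonneg _
  have hH0 : 0 ≤ H := by linarith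
  have hf : H < (⌊H⌋₊ : ℝ) + 1 := Nat.lt_floor_add_one H
  have hf2 : (⌊H⌋₊ : ℝ) ≤ H := Nat.floor_le hH0
  have hfY : Y₀ ≤ ⌊H⌋₊ := by
    have : (Y₀ : ℝ) ≤ ⌊H⌋₊ := by linarith
    exact_mod_cast this
  rw [piS_nat p H hH0]
  have h1 : (pc p (p + ⌊H⌋₊) : ℝ) ≤ 3 * (⌊H⌋₊ : ℝ) / Real.log ⌊H⌋₊ := hbt p ⌊H⌋₊ hfY
  refine h1.trans ?_
  have h2 : 3 / c ≤ Real.log ⌊H⌋₊ := by
    rw [Real.le_log_iff_exp_le (by linarith)]
    linarith
  have h3 : 0 < 3 / c := by positivity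
  have h4 : 0 < Real.log ⌊H⌋₊ := by linarith
  rw [div_le_iff₀ h4]
  have h5 : c * (3 / c) = 3 := by field_simp
  calc 3 * (⌊H⌋₊ : ℝ) ≤ 3 * H := by linarith
    _ = c * (3 / c) * H := by rw [h5]
    _ ≤ c * Real.log ⌊H⌋₊ * H := by gcongr
    _ = c * H * Real.log ⌊H⌋₊ := by ring

open Classical in
theorem core2 (ε : ℝ) (hε : 0 < ε) (hε1 : ε ≤ 1) : ∃ K : ℕ,
    ∀ᶠ N : ℕ in atTop, ∀ (R : ℕ) (T : ℕ → ℝ), Real.log N ^ 3 ≤ T 0 →
      (∀ i < R, Real.log N ^ 2 * T i ≤ T (i + 1)) → T R ≤ N →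
      ∃ B : Finset ℕ, B.card ≤ K ∧ ∀ i < R, i ∉ B → ∃ G : Finset ℕ,
        (∀ p ∈ G, p.Prime ∧ p < N ∧ ε ^ 2 / 128 * N ≤ p) ∧
        ((((range N).filter (fun p => p.Prime ∧ p ∉ G)).card : ℝ) ≤
          ε * Nat.primeCounting N) ∧
        (∀ p ∈ G, ∀ H H' : ℝ, T i ≤ H → H ≤ T (i + 1) / 2 → T i ≤ H' → H' ≤ T (i + 1) / 2 →
          |psi p H - psi p H'| ≤ ε) ∧
        (∀ θ : ℕ → ℝ, (∀ p ∈ G, ∃ H : ℝ, T i ≤ H ∧ H ≤ T (i + 1) / 2 ∧ θ p = psi p H) →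
          ∑ p ∈ (range N).filter Nat.Prime, 1 / max (θ p) ε ≤
            (1 + ε) * Nat.primeCounting N) := by
  obtain ⟨δ₁, hδ₁0, hδ₁, K, hK⟩ := core ε hε hε1
  obtain ⟨M, hM⟩ : ∃ M : ℝ, M = Real.log (128 / ε ^ 2) := ⟨_, rfl⟩
  have hM0 : 0 < M := by
    rw [hM]
    apply Real.log_pos
    rw [lt_div_iff₀ (by positivity)]
    have : ε ^ 2 ≤ 1 := by nlinarith
    linarith
  obtain ⟨H₀, hH₀, hsp⟩ := sparse (δ₁ / M) (by positivity)
  refine ⟨K, ?_⟩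
  have hNr : Tendsto (fun N : ℕ => (N : ℝ)) atTop atTop := tendsto_natCast_atTop_atTop
  have hlogN : Tendsto (fun N : ℕ => Real.log (N : ℝ)) atTop atTop :=
    Real.tendsto_log_atTop.comp hNr
  filter_upwards [hK, hlogN.eventually_ge_atTop H₀, eventually_ge_atTop 1,
    hlogN.eventually_ge_atTop 8] with N hN hLH hN1 hL8
  intro R T hT0 hTi hTR
  obtain ⟨B, hB, hBi⟩ := hN R T hT0 hTi hTR
  refine ⟨B, hB, ?_⟩
  intro i hi hiB
  obtain ⟨G, hG1, hG2, hG3, hG4⟩ := hBi i hi hiB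
  have hTall := scales (Real.log N) N hL8 R T hT0 hTi hTR
  have hN0 : (0 : ℝ) < N := by exact_mod_cast hN1
  obtain ⟨L, hL⟩ : ∃ L : ℝ, L = Real.log N := ⟨_, rfl⟩
  rw [← hL] at hT0 hTi hG3 hG4 hTall hL8 hLH
  have hTH : H₀ ≤ T i := by
    have h1 := (hTall i (by omega)).1
    have h2 : L * 1 ≤ L * L ^ 2 := by
      have : 1 ≤ L ^ 2 := one_le_pow₀ (by linarith)
      gcongr
    have e : L * L ^ 2 = L ^ 3 := by ring
    linarith
  have hconv : ∀ p ∈ G, ∀ H : ℝ, T i ≤ H → |psi p H - phi L p H| ≤ δ₁ := by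
    intro p hp H hH
    obtain ⟨-, hpN, hpη⟩ := hG1 p hp
    have hp0 : (0 : ℝ) < p := lt_of_lt_of_le (by positivity) hpη
    have hH0 : 0 < H := by linarith
    have h1 := hsp p H (hTH.trans hH)
    have h2 : Real.log p ≤ L := by
      rw [hL]
      apply Real.log_le_log hp0
      exact_mod_cast hpN.le
    have h3 : L - M ≤ Real.log p := by
      rw [hL, hM, ← Real.log_div (by positivity) (by positivity)]
      apply Real.log_le_log (by positivity)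
      refine le_trans (le_of_eq ?_) hpη
      field_simp
    have h4 : psi p H - phi L p H = -((piS p H : ℝ) / H * (L - Real.log p)) := by
      unfold psi phi
      field_simp
      ring
    rw [h4, abs_neg, abs_of_nonneg (by
      have : 0 ≤ L - Real.log p := by linarith
      positivity)]
    have h5 : (piS p H : ℝ) / H ≤ δ₁ / M := by
      rw [div_le_iff₀ hH0]; exact h1
    have h6 : 0 ≤ L - Real.log p := by linarith
    calc (piS p H : ℝ) / H * (L - Real.log p) ≤ δ₁ / M * M := by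
          apply mul_le_mul h5 (by linarith) h6 (by positivity)
      _ = δ₁ := by field_simp
  refine ⟨G, hG1, hG2.trans ?_, ?_, ?_⟩
  · apply mul_le_mul_of_nonneg_right _ (Nat.cast_nonneg _)
    nlinarith
  · intro p hp H H' h1 h2 h3 h4
    have h5 := hG3 p hp H H' h1 h2 h3 h4
    have h6 := hconv p hp H h1
    have h7 := hconv p hp H' h3
    rw [abs_le] at h5 h6 h7 ⊢
    constructor <;> linarith
  · intro θ hθ
    apply hG4 θ
    intro p hp
    obtain ⟨H, h1, h2, h3⟩ := hθ p hp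
    exact ⟨H, h1, h2, by rw [h3]; exact hconv p hp H h1⟩

open Classical in
/-- windows `[p ^ a, p ^ (a + κ)]` -/
theorem pow_windows (ε δ : ℝ) (hε : 0 < ε) (hε1 : ε ≤ 1) (hδ : 0 < δ) (hδ1 : δ ≤ 1) :
    ∃ κ : ℝ, 0 < κ ∧ ∀ᶠ N : ℕ in atTop, ∃ a : ℝ, κ ≤ a ∧ a + κ ≤ ε ∧
      (((range N).filter (fun p : ℕ => p.Prime ∧ ¬ ∀ H : ℝ, (p : ℝ) ^ a ≤ H →
        H ≤ (p : ℝ) ^ (a + κ) → |psi p H - psi p ((p : ℝ) ^ a)| ≤ δ)).card : ℝ) ≤
          δ * Nat.primeCounting N ∧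
      ∑ p ∈ (range N).filter Nat.Prime, 1 / max (psi p ((p : ℝ) ^ a)) δ ≤
        (1 + δ) * Nat.primeCounting N := by
  obtain ⟨K, hK⟩ := core2 δ hδ hδ1
  obtain ⟨R, hR⟩ : ∃ R : ℕ, R = K + 1 := ⟨_, rfl⟩
  obtain ⟨u, hu⟩ : ∃ u : ℝ, u = ε / (R + 1) := ⟨_, rfl⟩
  have hR0 : (0 : ℝ) < R + 1 := by positivity
  have hu0 : 0 < u := by rw [hu]; positivity
  have huR : u * (R + 1) = ε := by rw [hu]; field_simp
  refine ⟨u / 4, by positivity, ?_⟩
  have hNr : Tendsto (fun N : ℕ => (N : ℝ)) atTop atTop := tendsto_natCast_atTop_atTop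
  have hpow : ∀ v : ℝ, 0 < v → Tendsto (fun N : ℕ => (N : ℝ) ^ v) atTop atTop := fun v hv =>
    (tendsto_rpow_atTop hv).comp hNr
  have hpl : ∀ k : ℝ, ∀ᶠ N : ℕ in atTop, Real.log N ^ k ≤ (N : ℝ) ^ u := by
    intro k
    have h := ((isLittleO_log_rpow_rpow_atTop k hu0).comp_tendsto hNr).bound one_pos
    filter_upwards [h, eventually_ge_atTop 1] with X hX hX1
    have hX1' : (1 : ℝ) ≤ X := by exact_mod_cast hX1
    have hl := Real.log_nonneg hX1'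
    simp only [Function.comp_def, one_mul] at hX
    rwa [Real.norm_of_nonneg (by positivity), Real.norm_of_nonneg (by positivity)] at hX
  obtain ⟨η, hη⟩ : ∃ η : ℝ, η = δ ^ 2 / 128 := ⟨_, rfl⟩
  have hη0 : 0 < η := by rw [hη]; positivity
  have hη1 : η ≤ 1 := by rw [hη]; nlinarith
  filter_upwards [hK, hpl 3, hpl 2, (hpow (u / 4) (by positivity)).eventually_ge_atTop (1 / η),
    (hpow (u / 2) (by positivity)).eventually_ge_atTop 2, eventually_ge_atTop 1]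
    with N hN h3 h2 h4 h5 hN1
  have hN1r : (1 : ℝ) ≤ N := by exact_mod_cast hN1
  have hN0 : (0 : ℝ) < N := by linarith
  have e3 : Real.log (N : ℝ) ^ (3 : ℝ) = Real.log (N : ℝ) ^ 3 := by
    rw [← Real.rpow_natCast]; norm_num
  have e2 : Real.log (N : ℝ) ^ (2 : ℝ) = Real.log (N : ℝ) ^ 2 := by
    rw [← Real.rpow_natCast]; norm_num
  rw [e3] at h3
  rw [e2] at h2
  obtain ⟨T, hT⟩ : ∃ T : ℕ → ℝ, T = fun i : ℕ => (N : ℝ) ^ (u * ((i : ℝ) + 1)) := ⟨_, rfl⟩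
  obtain ⟨B, hB, hBi⟩ := hN R T (by
      rw [hT]
      simpa using h3) (by
      intro i _
      rw [hT]
      simp only
      have e1 : u * (((i + 1 : ℕ) : ℝ) + 1) = u + u * ((i : ℝ) + 1) := by push_cast; ring
      rw [e1, Real.rpow_add hN0]
      gcongr) (by
      rw [hT]
      simp only
      rw [huR]
      calc (N : ℝ) ^ ε ≤ (N : ℝ) ^ (1 : ℝ) :=
            Real.rpow_le_rpow_of_exponent_le hN1r hε1
        _ = N := Real.rpow_one _)
  obtain ⟨i, hi1, hi2⟩ : ∃ i ∈ Finset.range R, i ∉ B :=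
    Finset.exists_mem_notMem_of_card_lt_card (by rw [Finset.card_range]; omega)
  rw [Finset.mem_range] at hi1
  obtain ⟨G, hG1, hG2, hG3, hG4⟩ := hBi i hi1 hi2
  obtain ⟨b, hb⟩ : ∃ b : ℝ, b = u * ((i : ℝ) + 1) := ⟨_, rfl⟩
  have hiR : (i : ℝ) + 1 ≤ R := by exact_mod_cast hi1
  have hi0 : (0 : ℝ) ≤ i := Nat.cast_nonneg i
  have hbu : u ≤ b := by rw [hb]; nlinarith
  have hbε : b + u ≤ ε := by
    rw [← huR, hb]
    nlinarith
  have hTi : T i = (N : ℝ) ^ b := by rw [hT, hb]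
  have hTi1 : T (i + 1) = (N : ℝ) ^ b * (N : ℝ) ^ (u / 2) * (N : ℝ) ^ (u / 2) := by
    rw [hT]
    simp only
    rw [← Real.rpow_add hN0, ← Real.rpow_add hN0]
    congr 1
    rw [hb]
    push_cast
    ring
  have hwin : ∀ p ∈ G, T i ≤ (p : ℝ) ^ (b + u / 4) ∧
      (p : ℝ) ^ (b + u / 4 + u / 4) ≤ T (i + 1) / 2 := by
    intro p hp
    obtain ⟨-, hpN, hpη⟩ := hG1 p hp
    rw [← hη] at hpη
    have hpNr : (p : ℝ) ≤ N := by exact_mod_cast hpN.le
    have hp0 : (0 : ℝ) < p := lt_of_lt_of_le (by positivity) hpη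
    constructor
    · rw [hTi]
      have h6 : (η * N) ^ (b + u / 4) ≤ (p : ℝ) ^ (b + u / 4) :=
        Real.rpow_le_rpow (by positivity) hpη (by linarith)
      refine le_trans ?_ h6
      rw [Real.mul_rpow hη0.le hN0.le, Real.rpow_add hN0]
      have h7 : η ≤ η ^ (b + u / 4) := by
        calc η = η ^ (1 : ℝ) := (Real.rpow_one _).symm
          _ ≤ η ^ (b + u / 4) :=
            Real.rpow_le_rpow_of_exponent_ge hη0 hη1 (by linarith)
      have h8 : 1 ≤ η * (N : ℝ) ^ (u / 4) := by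
        rw [div_le_iff₀ hη0] at h4
        linarith
      calc (N : ℝ) ^ b = 1 * (N : ℝ) ^ b := (one_mul _).symm
        _ ≤ (η * (N : ℝ) ^ (u / 4)) * (N : ℝ) ^ b := by gcongr
        _ ≤ (η ^ (b + u / 4) * (N : ℝ) ^ (u / 4)) * (N : ℝ) ^ b := by gcongr
        _ = _ := by ring
    · calc (p : ℝ) ^ (b + u / 4 + u / 4) ≤ (N : ℝ) ^ (b + u / 4 + u / 4) :=
            Real.rpow_le_rpow hp0.le hpNr (by linarith)
        _ = (N : ℝ) ^ b * (N : ℝ) ^ (u / 2) := by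
            rw [← Real.rpow_add hN0]
            congr 1
            ring
        _ ≤ T (i + 1) / 2 := by
            rw [hTi1, le_div_iff₀ (by norm_num)]
            gcongr
  refine ⟨b + u / 4, by linarith, by linarith, ?_, ?_⟩
  · refine le_trans ?_ hG2
    have hsub : (range N).filter (fun p : ℕ => p.Prime ∧ ¬ ∀ H : ℝ, (p : ℝ) ^ (b + u / 4) ≤ H →
        H ≤ (p : ℝ) ^ (b + u / 4 + u / 4) →
          |psi p H - psi p ((p : ℝ) ^ (b + u / 4))| ≤ δ) ⊆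
        (range N).filter (fun p => p.Prime ∧ p ∉ G) := by
      intro p hp
      rw [mem_filter] at hp ⊢
      refine ⟨hp.1, hp.2.1, ?_⟩
      intro hpG
      apply hp.2.2
      intro H h6 h7
      obtain ⟨h8, h9⟩ := hwin p hpG
      have hp1 : (1 : ℝ) ≤ p := by exact_mod_cast hp.2.1.one_le
      have h10 : (p : ℝ) ^ (b + u / 4) ≤ (p : ℝ) ^ (b + u / 4 + u / 4) :=
        Real.rpow_le_rpow_of_exponent_le hp1 (by linarith)
      exact hG3 p hpG H _ (h8.trans h6) (h7.trans h9) h8 (h10.trans h9)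
    exact_mod_cast card_le_card hsub
  · apply hG4
    intro p hpG
    obtain ⟨h8, h9⟩ := hwin p hpG
    have hp1 : (1 : ℝ) ≤ p := by exact_mod_cast (hG1 p hpG).1.one_le
    have h10 : (p : ℝ) ^ (b + u / 4) ≤ (p : ℝ) ^ (b + u / 4 + u / 4) :=
      Real.rpow_le_rpow_of_exponent_le hp1 (by linarith)
    exact ⟨_, h8, h10.trans h9, rfl⟩

end Pool.Agent.TH886.PD
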