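import Pool.Agent.Results.MP_31d0eb_nt.FewBadScales

set_option autoImplicit false

/-!
# Few bad scales around almost all primes
-/

namespace Pool.Agent.TH886.PS

open Finset Filter Pool.Agent.W123.RP Pool.Agent.W123.GS Pool.Agent.H357R2.SI
open Pool.Agent.Results.MP_31d0eb_nt.FewBadScales

/-- `p` is a prime which begins an interval `[p, p + H]`, inside `[1, B]`, with few primes -/
def sp (c L : ℝ) (B p : ℕ) : Prop :=
  p.Prime ∧ ∃ H : ℕ, 1 ≤ H ∧ p + H ≤ B ∧ (pc (p - 1) (p + H) : ℝ) < c * H / L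

open Classical in
lemma sparse_card (c L : ℝ) (hc : 0 ≤ c) (hL : 0 < L) (B : ℕ) : ∀ (n A : ℕ), A + n = B →
    (((Ioc A B).filter (fun p => sp c L B p)).card : ℝ) ≤ c * n / L := by
  intro n
  induction n using Nat.strong_induction_on with
  | _ n ih =>
    intro A hA
    rcases Nat.eq_zero_or_pos n with h0 | h0
    · subst h0
      have : A = B := by omega
      subst this
      simp
    · by_cases hs : sp c L B (A + 1)
      · obtain ⟨hp, H, hH1, hHB, hH⟩ := hs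
        have h1 := ih (n - 1 - H) (by omega) (A + 1 + H) (by omega)
        have h2 : (Ioc A B).filter (fun p => sp c L B p) ⊆
            (Ioc A (A + 1 + H)).filter Nat.Prime ∪
              (Ioc (A + 1 + H) B).filter (fun p => sp c L B p) := by
          intro p hp'
          rw [mem_filter, mem_Ioc] at hp'
          rw [mem_union, mem_filter, mem_Ioc, mem_filter, mem_Ioc]
          by_cases h : p ≤ A + 1 + H
          · exact Or.inl ⟨⟨hp'.1.1, h⟩, hp'.2.1⟩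
          · exact Or.inr ⟨⟨by omega, hp'.1.2⟩, hp'.2⟩
        have h3 := (card_le_card h2).trans (card_union_le _ _)
        have h4 : (((Ioc A B).filter (fun p => sp c L B p)).card : ℝ) ≤
            (pc A (A + 1 + H) : ℝ) + (((Ioc (A + 1 + H) B).filter (fun p => sp c L B p)).card : ℝ) := by
          unfold pc
          exact_mod_cast h3
        have h5 : A + 1 - 1 = A := by omega
        rw [h5] at hH
        have h6 : ((n - 1 - H : ℕ) : ℝ) = (n : ℝ) - 1 - H := by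
          have : n - 1 - H + 1 + H = n := by omega
          have h : ((n - 1 - H : ℕ) : ℝ) + 1 + H = n := by exact_mod_cast this
          linarith
        rw [h6] at h1
        calc _ ≤ _ := h4
          _ ≤ c * H / L + c * ((n : ℝ) - 1 - H) / L := add_le_add hH.le h1
          _ = c * ((n : ℝ) - 1) / L := by ring
          _ ≤ c * n / L := by gcongr; linarith
      · have h1 := ih (n - 1) (by omega) (A + 1) (by omega)
        have h2 : (Ioc A B).filter (fun p => sp c L B p) ⊆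
              (Ioc (A + 1) B).filter (fun p => sp c L B p) := by
          intro p hp'
          rw [mem_filter, mem_Ioc] at hp'
          rw [mem_filter, mem_Ioc]
          refine ⟨⟨?_, hp'.1.2⟩, hp'.2⟩
          rcases Nat.lt_or_ge (A + 1) p with h | h
          · exact h
          · exfalso
            have : p = A + 1 := by omega
            exact hs (this ▸ hp'.2)
        have h3 : (((Ioc A B).filter (fun p => sp c L B p)).card : ℝ) ≤
            (((Ioc (A + 1) B).filter (fun p => sp c L B p)).card : ℝ) := by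
          exact_mod_cast card_le_card h2
        refine h3.trans (h1.trans ?_)
        have : ((n - 1 : ℕ) : ℝ) ≤ n := by exact_mod_cast Nat.sub_le _ _
        gcongr

open Classical in
/-- primes all of whose left neighbours are bad -/
lemma all_bad (X Y T : ℕ) (bad : ℕ → Prop) (η C : ℝ) (hη : 0 ≤ η) (hC : 0 ≤ C)
    (hbad : (((Ioc X (X + Y)).filter (fun n => bad n)).card : ℝ) ≤ η * Y)
    (hm : ∑ n ∈ Finset.Ico (X + 1) (X + 1 + Y), ((pc n (n + T) : ℝ)) ^ 2 ≤ C * Y) :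
    (T : ℝ) * (((Ioc (X + T) (X + Y)).filter
      (fun p => p.Prime ∧ ∀ n, n < p → p ≤ n + T → bad n)).card : ℝ) ≤ Real.sqrt (η * C) * Y := by
  set PB := (Ioc (X + T) (X + Y)).filter (fun p => p.Prime ∧ ∀ n, n < p → p ≤ n + T → bad n)
    with hPB
  set Bd := (Ioc X (X + Y)).filter (fun n => bad n) with hBd
  have h1 : (PB ×ˢ range T).card ≤
      (Bd.sigma (fun n => (Ioc n (n + T)).filter Nat.Prime)).card := by
    apply Finset.card_le_card_of_injOn (fun x : ℕ × ℕ => (⟨x.1 - 1 - x.2, x.1⟩ : Σ _ : ℕ, ℕ))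
    · rintro ⟨p, i⟩ hx
      rw [Finset.mem_coe, mem_product, hPB, mem_filter, mem_Ioc, mem_range] at hx
      obtain ⟨⟨⟨h1, h2⟩, h3, h4⟩, h5⟩ := hx
      simp only at h1 h2 h3 h4 h5
      rw [Finset.mem_coe, mem_sigma, hBd, mem_filter, mem_Ioc, mem_filter, mem_Ioc]
      simp only
      refine ⟨⟨⟨by omega, by omega⟩, h4 _ (by omega) (by omega)⟩, ⟨by omega, by omega⟩, h3⟩
    · rintro ⟨p, i⟩ hx ⟨q, j⟩ hy hxy
      rw [Finset.mem_coe, mem_product, hPB, mem_filter, mem_Ioc, mem_range] at hx hy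
      obtain ⟨⟨⟨h1, h2⟩, h3, h4⟩, h5⟩ := hx
      obtain ⟨⟨⟨h1', h2'⟩, h3', h4'⟩, h5'⟩ := hy
      simp only at h1 h5 h1' h5'
      simp only [Sigma.mk.injEq, heq_eq_eq] at hxy
      obtain ⟨h6, h7⟩ := hxy
      subst h7
      have : i = j := by omega
      rw [this]
  have h2 : (Bd.sigma (fun n => (Ioc n (n + T)).filter Nat.Prime)).card =
      ∑ n ∈ Bd, pc n (n + T) := by
    rw [card_sigma]
    rfl
  rw [card_product, card_range, h2] at h1
  have h3 : (T : ℝ) * (PB.card : ℝ) ≤ ∑ n ∈ Bd, (pc n (n + T) : ℝ) := by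
    have : ((PB.card * T : ℕ) : ℝ) ≤ ((∑ n ∈ Bd, pc n (n + T) : ℕ) : ℝ) := by exact_mod_cast h1
    push_cast at this
    linarith
  have h4 : (∑ n ∈ Bd, (pc n (n + T) : ℝ)) ^ 2 ≤ Bd.card * ∑ n ∈ Bd, ((pc n (n + T) : ℝ)) ^ 2 :=
    sq_sum_le_card_mul_sum_sq
  have h5 : ∑ n ∈ Bd, ((pc n (n + T) : ℝ)) ^ 2 ≤
      ∑ n ∈ Finset.Ico (X + 1) (X + 1 + Y), ((pc n (n + T) : ℝ)) ^ 2 := by
    apply sum_le_sum_of_subset_of_nonneg
    · intro n hn
      rw [hBd, mem_filter, mem_Ioc] at hn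
      rw [mem_Ico]
      omega
    · intro _ _ _; positivity
  have hY0 : (0 : ℝ) ≤ Y := Nat.cast_nonneg Y
  have h6 : (∑ n ∈ Bd, (pc n (n + T) : ℝ)) ^ 2 ≤ (Real.sqrt (η * C) * Y) ^ 2 := by
    rw [mul_pow, Real.sq_sqrt (by positivity)]
    calc _ ≤ _ := h4
      _ ≤ (η * Y) * (C * Y) := by
        apply mul_le_mul hbad (h5.trans hm) (by positivity) (by positivity)
      _ = η * C * (Y : ℝ) ^ 2 := by ring
  have h7 : (∑ n ∈ Bd, (pc n (n + T) : ℝ)) ≤ Real.sqrt (η * C) * Y :=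
    (pow_le_pow_iff_left₀ (by positivity) (by positivity) (by norm_num)).1 h6
  exact h3.trans h7

/-- transfer of a good scale from an integer to a prime near it -/
lemma transfer (c₀ Λ δ δ₁ L : ℝ) (X Y p n j : ℕ) (e : ℕ) (hc₀ : 0 < c₀)
    (hL : L = Real.log X) (hX : 3 ≤ X) (hYX : Y ≤ X) (hn1 : X < n) (hnp : n < p) (hpn : p ≤ X + Y)
    (hpL : (p : ℝ) ≤ n + L) (hpp : p.Prime)
    (hδ₁ : 0 < δ₁) (hd1 : 4 * δ₁ ≤ δ) (hd2 : 16 * δ₁ ≤ c₀) (he : 8 ≤ c₀ * 2 ^ e)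
    (hj1 : 2 ^ e * L ≤ (2 : ℝ) ^ j) (hj2 : 2 ^ j ≤ Y)
    (hsp : ¬ sp c₀ L (X + 2 * Y) p)
    (hcd : ConstantDensity 0 Λ δ₁ n (2 ^ (j + 1))) :
    ConstantDensity (c₀ / 2) (2 * Λ) δ p (2 ^ j) := by
  obtain ⟨lam, h1, h2, h3⟩ := hcd
  have hXr : (3 : ℝ) ≤ X := by exact_mod_cast hX
  have hL1 : 1 < L := by
    rw [hL, Real.lt_log_iff_exp_lt (by linarith)]
    have := Real.exp_one_lt_d9
    linarith
  have hL0 : 0 < L := by linarith
  have hnX : (X : ℝ) ≤ n := by exact_mod_cast hn1.le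
  have hpX : (p : ℝ) ≤ 2 * X := by
    have : p ≤ 2 * X := by omega
    exact_mod_cast this
  have hnp' : (n : ℝ) ≤ p := by exact_mod_cast hnp.le
  obtain ⟨ln, hln⟩ : ∃ ln : ℝ, ln = Real.log n := ⟨_, rfl⟩
  obtain ⟨lp, hlp⟩ : ∃ lp : ℝ, lp = Real.log p := ⟨_, rfl⟩
  have hlnL : L ≤ ln := by rw [hL, hln]; exact Real.log_le_log (by linarith) hnX
  have hlnp : ln ≤ lp := by rw [hlp, hln]; exact Real.log_le_log (by linarith) hnp'
  have hlpL : lp ≤ 2 * L := by
    rw [hL, hlp]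
    calc Real.log p ≤ Real.log ((X : ℝ) ^ 2) := Real.log_le_log (by linarith) (by nlinarith)
      _ = 2 * Real.log X := by rw [Real.log_pow]; norm_num
  have hln0 : 0 < ln := by linarith
  have hlp0 : 0 < lp := by linarith
  have hratio1 : 1 ≤ lp / ln := by rw [le_div_iff₀ hln0]; linarith
  have hratio2 : lp / ln ≤ 2 := by rw [div_le_iff₀ hln0]; linarith
  have h2j : (0 : ℝ) < 2 ^ j := by positivity
  have h2e : (0 : ℝ) < 2 ^ e := by positivity
  -- the distance of `n` and `p` is at most `2 ^ j`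
  have h2e1 : (1 : ℝ) ≤ 2 ^ e := one_le_pow₀ (by norm_num)
  have hdist : p ≤ n + 2 ^ j := by
    have h : (p : ℝ) ≤ n + (2 : ℝ) ^ j := by
      refine hpL.trans ?_
      have : L ≤ 2 ^ e * L := by nlinarith
      linarith
    exact_mod_cast h
  have e2 : ∀ x : ℝ, lam * (lp / ln) * x / lp = lam * x / ln := by
    intro x; field_simp
  have h2jn : 2 ^ (j + 1) = 2 ^ j + 2 ^ j := by rw [pow_succ]; ring
  refine ⟨lam * (lp / ln), ?_, ?_, ?_⟩
  · -- lower bound
    have hns : c₀ * ((2 ^ j : ℕ) : ℝ) / L ≤ (pc (p - 1) (p + 2 ^ j) : ℝ) := by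
      by_contra hcon
      push Not at hcon
      exact hsp ⟨hpp, 2 ^ j, Nat.one_le_two_pow, by omega, hcon⟩
    have hcard : (pc (p - 1) (p + 2 ^ j) : ℝ) ≤ (pc p (p + 2 ^ j) : ℝ) + 1 := by
      have : pc (p - 1) (p + 2 ^ j) ≤ pc p (p + 2 ^ j) + 1 := by
        unfold pc
        have hsub : (Ioc (p - 1) (p + 2 ^ j)).filter Nat.Prime ⊆
            (Ioc p (p + 2 ^ j)).filter Nat.Prime ∪ {p} := by
          intro x hx
          rw [mem_filter, mem_Ioc] at hx
          rw [mem_union, mem_filter, mem_Ioc, mem_singleton]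
          by_cases hxp : x = p
          · exact Or.inr hxp
          · exact Or.inl ⟨⟨by omega, hx.1.2⟩, hx.2⟩
        refine (card_le_card hsub).trans ((card_union_le _ _).trans ?_)
        simp
      exact_mod_cast this
    have h4 := h3 p (p + 2 ^ j) (by omega) (by omega) (by omega)
    have e3 : (((p + 2 ^ j : ℕ) : ℝ) - (p : ℝ)) = 2 ^ j := by push_cast; ring
    rw [e3, ← hln] at h4
    have h5 := (abs_le.1 h4).2
    change (pc p (p + 2 ^ j) : ℝ) - _ ≤ _ at h5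
    have e4 : ((2 ^ (j + 1) : ℕ) : ℝ) = 2 * 2 ^ j := by push_cast; ring
    rw [e4] at h5
    have h6 : c₀ * 2 ^ j / L ≤ lam * 2 ^ j / ln + δ₁ * (2 * 2 ^ j) / ln + 1 := by
      push_cast at hns
      linarith
    -- multiply by `lp / 2 ^ j`
    have h7 : c₀ * (lp / L) ≤ lam * (lp / ln) + 2 * δ₁ * (lp / ln) + lp / 2 ^ j := by
      have := mul_le_mul_of_nonneg_right h6 (by positivity : 0 ≤ lp / 2 ^ j)
      calc c₀ * (lp / L) = c₀ * 2 ^ j / L * (lp / 2 ^ j) := by field_simp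
        _ ≤ _ := this
        _ = _ := by field_simp
    have h8 : 1 ≤ lp / L := by rw [le_div_iff₀ hL0]; linarith
    have h9 : lp / 2 ^ j ≤ c₀ / 4 := by
      rw [div_le_div_iff₀ h2j (by norm_num)]
      have : 2 * L * 4 ≤ c₀ * 2 ^ j := by
        calc 2 * L * 4 = 8 * L := by ring
          _ ≤ c₀ * 2 ^ e * L := by gcongr
          _ = c₀ * (2 ^ e * L) := by ring
          _ ≤ c₀ * 2 ^ j := by gcongr
      linarith
    have h10 : 2 * δ₁ * (lp / ln) ≤ c₀ / 4 := by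
      have : 2 * δ₁ * (lp / ln) ≤ 2 * δ₁ * 2 := by gcongr
      linarith
    have h11 : c₀ ≤ c₀ * (lp / L) := by nlinarith
    linarith
  · have : 0 ≤ lp / ln := by positivity
    calc lam * (lp / ln) ≤ Λ * 2 := by
          apply mul_le_mul h2 hratio2 this (h1.trans h2)
      _ = 2 * Λ := by ring
  · intro u v hu huv hv
    have h4 := h3 u v (by omega) huv (by omega)
    rw [← hln] at h4
    rw [← hlp, e2]
    refine h4.trans ?_
    push_cast
    rw [div_le_div_iff₀ hln0 hlp0]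
    calc δ₁ * 2 ^ (j + 1) * lp ≤ δ₁ * 2 ^ (j + 1) * (2 * ln) := by
          gcongr
          linarith
      _ = (4 * δ₁) * 2 ^ j * ln := by ring
      _ ≤ δ * 2 ^ j * ln := by gcongr


open Classical in
lemma small_card (R e : ℕ) (L : ℝ) :
    ((range R).filter (fun j => L ≤ (2 : ℝ) ^ j ∧ (2 : ℝ) ^ j < 2 ^ e * L)).card ≤ e := by
  set s := (range R).filter (fun j => L ≤ (2 : ℝ) ^ j ∧ (2 : ℝ) ^ j < 2 ^ e * L) with hs
  rcases s.eq_empty_or_nonempty with h | h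
  · rw [h]; simp
  · have h1 := s.min'_mem h
    obtain ⟨j0, hj0⟩ : ∃ j0, j0 = s.min' h := ⟨_, rfl⟩
    rw [← hj0] at h1
    have h2 : s ⊆ Ico j0 (j0 + e) := by
      intro j hj
      have h3 : j0 ≤ j := by rw [hj0]; exact s.min'_le j hj
      rw [hs, mem_filter] at hj h1
      rw [mem_Ico]
      refine ⟨h3, ?_⟩
      have h4 : (2 : ℝ) ^ j < 2 ^ (j0 + e) := by
        calc (2 : ℝ) ^ j < 2 ^ e * L := hj.2.2
          _ ≤ 2 ^ e * 2 ^ j0 := by gcongr; exact h1.2.1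
          _ = 2 ^ (j0 + e) := by rw [pow_add]; ring
      exact (pow_lt_pow_iff_right₀ (by norm_num)).1 h4
    have h5 := card_le_card h2
    rw [Nat.card_Ico] at h5
    omega

open Classical in
/-- the number of bad scales at a prime near an integer with few bad scales -/
lemma count (c₀ Λ δ δ₁ L : ℝ) (X Y p n : ℕ) (e : ℕ) (hc₀ : 0 < c₀)
    (hL : L = Real.log X) (hX : 3 ≤ X) (hYX : Y ≤ X) (hY1 : 1 ≤ Y) (hn1 : X < n) (hnp : n < p)
    (hpn : p ≤ X + Y)
    (hpL : (p : ℝ) ≤ n + L) (hpp : p.Prime)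
    (hδ₁ : 0 < δ₁) (hd1 : 4 * δ₁ ≤ δ) (hd2 : 16 * δ₁ ≤ c₀) (he : 8 ≤ c₀ * 2 ^ e)
    (hsp : ¬ sp c₀ L (X + 2 * Y) p) :
    badScales (c₀ / 2) (2 * Λ) δ Y p ≤ badScales 0 Λ δ₁ Y n + e + 1 := by
  have hXr : (3 : ℝ) ≤ X := by exact_mod_cast hX
  have hnX : (X : ℝ) ≤ n := by exact_mod_cast hn1.le
  have hnp' : (n : ℝ) ≤ p := by exact_mod_cast hnp.le
  unfold badScales
  set Sp := (Finset.range (Nat.log 2 Y + 1)).filter (fun j => Real.log p ≤ (2 : ℝ) ^ j ∧
    ¬ ConstantDensity (c₀ / 2) (2 * Λ) δ p (2 ^ j)) with hSp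
  set Sn := (Finset.range (Nat.log 2 Y + 1)).filter (fun j => Real.log n ≤ (2 : ℝ) ^ j ∧
    ¬ ConstantDensity 0 Λ δ₁ n (2 ^ j)) with hSn
  have hsub : Sp ⊆ ((range (Nat.log 2 Y + 1)).filter
      (fun j => L ≤ (2 : ℝ) ^ j ∧ (2 : ℝ) ^ j < 2 ^ e * L)) ∪ ({Nat.log 2 Y} ∪
        Sn.image (fun j => j - 1)) := by
    intro j hj
    rw [hSp, mem_filter, mem_range] at hj
    obtain ⟨h1, h2, h3⟩ := hj
    rw [mem_union, mem_union, mem_filter, mem_range, mem_singleton, mem_image]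
    have hLj : L ≤ (2 : ℝ) ^ j := by
      refine le_trans ?_ h2
      rw [hL]
      exact Real.log_le_log (by linarith) (by linarith)
    by_cases h4 : (2 : ℝ) ^ j < 2 ^ e * L
    · exact Or.inl ⟨h1, hLj, h4⟩
    · push Not at h4
      right
      by_cases h5 : j = Nat.log 2 Y
      · exact Or.inl h5
      · right
        refine ⟨j + 1, ?_, by omega⟩
        rw [hSn, mem_filter, mem_range]
        refine ⟨by omega, ?_, ?_⟩
        · have : Real.log n ≤ Real.log p := Real.log_le_log (by linarith) hnp'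
          have h6 : (2 : ℝ) ^ j ≤ 2 ^ (j + 1) := pow_le_pow_right₀ (by norm_num) (by omega)
          linarith
        · intro hcd
          apply h3
          have h7 : 2 ^ j ≤ Y := by
            have : 2 ^ j ≤ 2 ^ (Nat.log 2 Y) := Nat.pow_le_pow_right (by norm_num) (by omega)
            exact this.trans (Nat.pow_log_le_self 2 (by omega))
          exact transfer c₀ Λ δ δ₁ L X Y p n j e hc₀ hL hX hYX hn1 hnp hpn hpL hpp hδ₁ hd1 hd2 he
            h4 h7 hsp hcd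
  have h1 := card_le_card hsub
  have h2 := small_card (Nat.log 2 Y + 1) e L
  have h3 : (Sn.image (fun j => j - 1)).card ≤ Sn.card := card_image_le
  have h4 := card_union_le ((range (Nat.log 2 Y + 1)).filter
      (fun j => L ≤ (2 : ℝ) ^ j ∧ (2 : ℝ) ^ j < 2 ^ e * L)) ({Nat.log 2 Y} ∪
        Sn.image (fun j => j - 1))
  have h5 := card_union_le ({Nat.log 2 Y} : Finset ℕ) (Sn.image (fun j => j - 1))
  rw [card_singleton] at h5
  omega

open Classical in
theorem main (θ : ℝ) (h0 : 0 < θ) (h1 : θ ≤ 1) (η : ℝ) (hη : 0 < η) :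
    ∃ c₁ c₂ : ℝ, 0 < c₁ ∧ ∀ δ : ℝ, 0 < δ → ∃ K : ℕ,
      ∀ᶠ X : ℕ in atTop, ∀ Y : ℕ, (X : ℝ) ^ θ ≤ Y → Y ≤ X →
        (((Finset.Ioc X (X + Y)).filter (fun p => p.Prime ∧ K < badScales c₁ c₂ δ Y p)).card : ℝ) ≤
          η * Y / Real.log X := by
  obtain ⟨C, hC, u0, hmom⟩ := Pool.Agent.W123.LR.second_moment_local θ h0
  obtain ⟨c₀, hc₀⟩ : ∃ c₀ : ℝ, c₀ = η / 8 := ⟨_, rfl⟩
  have hc₀0 : 0 < c₀ := by rw [hc₀]; positivity
  obtain ⟨η₁, hη₁⟩ : ∃ η₁ : ℝ, η₁ = η ^ 2 / (64 * C) := ⟨_, rfl⟩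
  have hη₁0 : 0 < η₁ := by rw [hη₁]; positivity
  have hsqrt : Real.sqrt (η₁ * C) = η / 8 := by
    have : η₁ * C = (η / 8) ^ 2 := by rw [hη₁]; field_simp; norm_num
    rw [this, Real.sqrt_sq (by positivity)]
  obtain ⟨Λ, hΛ⟩ := Pool.Agent.Results.MP_31d0eb_nt.FewBadScales.result.1 θ h0 h1 η₁ hη₁0
  obtain ⟨e, he⟩ : ∃ e : ℕ, 8 ≤ c₀ * 2 ^ e := by
    obtain ⟨e, he⟩ := pow_unbounded_of_one_lt (8 / c₀) (one_lt_two : (1 : ℝ) < 2)
    refine ⟨e, ?_⟩
    rw [div_lt_iff₀ hc₀0] at he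
    linarith
  refine ⟨c₀ / 2, 2 * Λ, by positivity, ?_⟩
  intro δ hδ
  obtain ⟨δ₁, hδ₁⟩ : ∃ δ₁ : ℝ, δ₁ = min (δ / 4) (c₀ / 16) := ⟨_, rfl⟩
  have hδ₁0 : 0 < δ₁ := by rw [hδ₁]; positivity
  have hd1 : 4 * δ₁ ≤ δ := by
    have : δ₁ ≤ δ / 4 := by rw [hδ₁]; exact min_le_left _ _
    linarith
  have hd2 : 16 * δ₁ ≤ c₀ := by
    have : δ₁ ≤ c₀ / 16 := by rw [hδ₁]; exact min_le_right _ _
    linarith
  obtain ⟨K₁, hK₁⟩ := hΛ δ₁ hδ₁0
  refine ⟨K₁ + e + 1, ?_⟩
  have hXr : Tendsto (fun X : ℕ => (X : ℝ)) atTop atTop := tendsto_natCast_atTop_atTop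
  have hlogX : Tendsto (fun X : ℕ => Real.log (X : ℝ)) atTop atTop :=
    Real.tendsto_log_atTop.comp hXr
  have hpow : Tendsto (fun X : ℕ => (X : ℝ) ^ θ) atTop atTop :=
    (tendsto_rpow_atTop h0).comp hXr
  have hpl : ∀ᶠ X : ℕ in atTop, (4 / η + 1) * Real.log X ^ 2 ≤ (X : ℝ) ^ θ := by
    have h := ((isLittleO_log_rpow_rpow_atTop 2 h0).comp_tendsto hXr).bound
      (by positivity : (0 : ℝ) < 1 / (4 / η + 1))
    filter_upwards [h, eventually_ge_atTop 1] with X hX hX1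
    have hX1' : (1 : ℝ) ≤ X := by exact_mod_cast hX1
    have hl := Real.log_nonneg hX1'
    simp only [Function.comp_def] at hX
    rw [Real.norm_of_nonneg (by positivity), Real.norm_of_nonneg (by positivity)] at hX
    have e : Real.log (X : ℝ) ^ (2 : ℝ) = Real.log (X : ℝ) ^ 2 := by
      rw [← Real.rpow_natCast]; norm_num
    rw [e] at hX
    have hb : 0 < 4 / η + 1 := by positivity
    calc (4 / η + 1) * Real.log X ^ 2 ≤ (4 / η + 1) * (1 / (4 / η + 1) * (X : ℝ) ^ θ) := by gcongr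
      _ = (X : ℝ) ^ θ := by field_simp
  filter_upwards [hK₁, eventually_ge_atTop 3, hlogX.eventually_ge_atTop 2, hpl,
    hpow.eventually_ge_atTop ((u0 : ℝ) + 1)] with X hK hX3 hL2 hpl hbig
  intro Y hY hYX
  obtain ⟨L, hL⟩ : ∃ L : ℝ, L = Real.log X := ⟨_, rfl⟩
  rw [← hL] at hL2 hpl ⊢
  have hL0 : 0 < L := by linarith
  have hYbig : (u0 : ℝ) + 1 ≤ Y := hbig.trans hY
  have hYbign : u0 + 1 ≤ Y := by exact_mod_cast hYbig
  have hYpos : (0 : ℝ) < Y := by
    have : 0 < Y := by omega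
    exact_mod_cast this
  have hYL : (4 / η + 1) * L ^ 2 ≤ Y := hpl.trans hY
  obtain ⟨T, hT⟩ : ∃ T : ℕ, T = ⌊L⌋₊ := ⟨_, rfl⟩
  have hTL : (T : ℝ) ≤ L := by rw [hT]; exact Nat.floor_le hL0.le
  have hTL2 : L / 2 ≤ T := by
    have : L < (T : ℝ) + 1 := by rw [hT]; exact Nat.lt_floor_add_one L
    linarith
  have hTpos : (0 : ℝ) < T := by linarith
  have hL2Y : L ^ 2 ≤ Y := by
    refine le_trans ?_ hYL
    have : 0 ≤ 4 / η := by positivity
    nlinarith [sq_nonneg L]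
  have hTY : T ≤ Y := by
    have : (T : ℝ) ≤ Y := by nlinarith
    exact_mod_cast this
  obtain ⟨bad, hbad⟩ : ∃ bad : ℕ → Prop, ∀ n, bad n ↔ K₁ < badScales 0 Λ δ₁ Y n :=
    ⟨fun n => K₁ < badScales 0 Λ δ₁ Y n, fun _ => Iff.rfl⟩
  have hk : (((Ioc X (X + Y)).filter (fun n => bad n)).card : ℝ) ≤ η₁ * Y := by
    have hk := hK Y hY hYX
    rwa [Finset.filter_congr (fun n _ => (hbad n).symm)] at hk
  have hm := hmom X Y T hX3 hY (by omega) hTY (hL ▸ hTL)
  have hA := all_bad X Y T bad η₁ C hη₁0.le (by linarith) hk hm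
  rw [hsqrt] at hA
  have hS := sparse_card c₀ L hc₀0.le hL0 (X + 2 * Y) (2 * Y) X rfl
  have hsub : (Finset.Ioc X (X + Y)).filter
      (fun p => p.Prime ∧ K₁ + e + 1 < badScales (c₀ / 2) (2 * Λ) δ Y p) ⊆
      Ioc X (X + T) ∪ ((Ioc X (X + 2 * Y)).filter (fun p => sp c₀ L (X + 2 * Y) p) ∪
        (Ioc (X + T) (X + Y)).filter (fun p => p.Prime ∧ ∀ n, n < p → p ≤ n + T → bad n)) := by
    intro p hp
    rw [mem_filter, mem_Ioc] at hp
    obtain ⟨⟨hp1, hp2⟩, hpp, hpK⟩ := hp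
    rw [mem_union, mem_union, mem_Ioc, mem_filter, mem_Ioc, mem_filter, mem_Ioc]
    by_cases h2 : p ≤ X + T
    · exact Or.inl ⟨hp1, h2⟩
    · right
      by_cases h3 : sp c₀ L (X + 2 * Y) p
      · exact Or.inl ⟨⟨hp1, by omega⟩, h3⟩
      · right
        refine ⟨⟨by omega, hp2⟩, hpp, ?_⟩
        intro n hn1 hn2
        by_contra hcon
        rw [hbad] at hcon
        push Not at hcon
        have hpL : (p : ℝ) ≤ n + L := by
          have : (p : ℝ) ≤ n + T := by exact_mod_cast hn2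
          linarith
        have h4 := count c₀ Λ δ δ₁ L X Y p n e hc₀0 hL hX3 hYX (by omega) (by omega) hn1 hp2 hpL
          hpp hδ₁0 hd1 hd2 he h3
        omega
  have hcard := (card_le_card hsub).trans (card_union_le _ _)
  have hcard2 := hcard.trans (Nat.add_le_add_left (card_union_le _ _) _)
  rw [Nat.card_Ioc] at hcard2
  have hTT : X + T - X = T := by omega
  rw [hTT] at hcard2
  have hfin : (((Finset.Ioc X (X + Y)).filter
      (fun p => p.Prime ∧ K₁ + e + 1 < badScales (c₀ / 2) (2 * Λ) δ Y p)).card : ℝ) ≤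
      T + ((((Ioc X (X + 2 * Y)).filter (fun p => sp c₀ L (X + 2 * Y) p)).card : ℝ) +
        (((Ioc (X + T) (X + Y)).filter (fun p => p.Prime ∧ ∀ n, n < p → p ≤ n + T →
          bad n)).card : ℝ)) := by exact_mod_cast hcard2
  have b1 : (T : ℝ) ≤ η / 4 * Y / L := by
    rw [le_div_iff₀ hL0]
    have h5 : 4 / η * L ^ 2 ≤ Y := by
      refine le_trans ?_ hYL
      nlinarith [sq_nonneg L]
    have h6 : L ^ 2 ≤ η / 4 * Y := by
      rw [div_mul_eq_mul_div, div_le_iff₀ hη] at h5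
      linarith
    nlinarith
  have b2 : (((Ioc X (X + 2 * Y)).filter (fun p => sp c₀ L (X + 2 * Y) p)).card : ℝ) ≤
      η / 4 * Y / L := by
    refine hS.trans (le_of_eq ?_)
    rw [hc₀]
    push_cast
    ring
  have b3 : (((Ioc (X + T) (X + Y)).filter (fun p => p.Prime ∧ ∀ n, n < p → p ≤ n + T →
          bad n)).card : ℝ) ≤ η / 4 * Y / L := by
    obtain ⟨Q, hQ⟩ : ∃ Q : ℝ, Q = (((Ioc (X + T) (X + Y)).filter (fun p => p.Prime ∧
      ∀ n, n < p → p ≤ n + T → bad n)).card : ℝ) := ⟨_, rfl⟩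
    rw [← hQ] at hA ⊢
    have hQ0 : 0 ≤ Q := by rw [hQ]; positivity
    rw [le_div_iff₀ hL0]
    nlinarith
  calc _ ≤ _ := hfin
    _ ≤ η / 4 * Y / L + (η / 4 * Y / L + η / 4 * Y / L) := by linarith
    _ = 3 / 4 * (η * Y / L) := by ring
    _ ≤ η * Y / L := by
      have : 0 ≤ η * Y / L := by positivity
      linarith

end Pool.Agent.TH886.PS
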