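import Pool.Agent.W123.PP.Win
import Pool.Agent.H932R4.MO.Final

set_option autoImplicit false

/-!
# Almost all primes are regular points
-/

namespace Pool.Agent.TH886.RP

open Finset Filter Pool.Agent.W123.RP Pool.Agent.W123.PP

/-- every interval `(a, b]` with `a ≤ n ≤ b` and `K log n ≤ b - a ≤ Z` contains between
`c₁ (b - a) / log n` and `c₂ (b - a) / log n` primes -/
def RegularUpTo (c₁ c₂ K : ℝ) (Z n : ℕ) : Prop :=
  ∀ a b : ℕ, a ≤ n → n ≤ b → K * Real.log n ≤ (b : ℝ) - a → (b : ℝ) - a ≤ Z →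
    c₁ * ((b : ℝ) - a) / Real.log n ≤ (((Finset.Ioc a b).filter Nat.Prime).card : ℝ) ∧
      (((Finset.Ioc a b).filter Nat.Prime).card : ℝ) ≤ c₂ * ((b : ℝ) - a) / Real.log n

/-- windows of length at most `Y` -/
lemma short (c Lam L : ℝ) (X Y p : ℕ) (hc : 0 < c) (hLam : 0 < Lam) (hL : L = Real.log X)
    (hL2 : 2 ≤ L) (hLY : L ≤ Y) (hXp : X < p) (hpX : p ≤ X + Y) (hYX : Y ≤ X) (hX : 3 ≤ X)
    (W1 : ∀ H : ℕ, 1 ≤ H → H ≤ Y →
          c / L * H ≤ cl Nat.Prime p (p + H) ∧
          c / L * H ≤ cl Nat.Prime (p + 1 - H) (p + 1))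
    (W2 : ∀ H : ℕ, ⌊L⌋₊ ≤ H → H ≤ Y →
          (co Nat.Prime p (p + H) : ℝ) ≤ Lam / L * H ∧
          (co Nat.Prime (p - H) p : ℝ) ≤ Lam / L * H) :
    ∀ a b : ℕ, a ≤ p → p ≤ b → (2 + 4 / c) * L ≤ (b : ℝ) - a → (b : ℝ) - a ≤ Y →
      c / 4 * ((b : ℝ) - a) / L ≤ (co Nat.Prime a b : ℝ) ∧
        (co Nat.Prime a b : ℝ) ≤ 2 * Lam * ((b : ℝ) - a) / L := by
  intro a b ha hb h1 h2
  have hL0 : 0 < L := by linarith
  have hT1 : (⌊L⌋₊ : ℝ) ≤ L := Nat.floor_le hL0.le
  have hTY : ⌊L⌋₊ ≤ Y := by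
    have : (⌊L⌋₊ : ℝ) ≤ Y := by linarith
    exact_mod_cast this
  obtain ⟨s, hs⟩ : ∃ s, p = a + s := ⟨p - a, by omega⟩
  obtain ⟨t, ht⟩ : ∃ t, b = p + t := ⟨b - p, by omega⟩
  have hst : (b : ℝ) - a = s + t := by rw [ht, hs]; push_cast; ring
  rw [hst] at h1 h2 ⊢
  have hs0 : (0 : ℝ) ≤ s := Nat.cast_nonneg s
  have ht0 : (0 : ℝ) ≤ t := Nat.cast_nonneg t
  have hsY : s ≤ Y := by
    have : (s : ℝ) ≤ Y := by linarith
    exact_mod_cast this
  have htY : t ≤ Y := by
    have : (t : ℝ) ≤ Y := by linarith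
    exact_mod_cast this
  have hadd : (co Nat.Prime a b : ℝ) = co Nat.Prime a p + co Nat.Prime p b := by
    have := co_add (P := Nat.Prime) ha hb
    exact_mod_cast this.symm
  have h4c : (0 : ℝ) < 4 / c := by positivity
  have h1' : 2 * L + 4 / c * L ≤ s + t := by linarith
  have h4cL : 0 < 4 / c * L := by positivity
  constructor
  · have ha0 : (0 : ℝ) ≤ co Nat.Prime a p := Nat.cast_nonneg _
    have hb0 : (0 : ℝ) ≤ co Nat.Prime p b := Nat.cast_nonneg _
    rcases le_total s t with hst' | hst'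
    · have hst'r : (s : ℝ) ≤ t := by exact_mod_cast hst'
      have ht1 : 1 ≤ t := by
        have : (0 : ℝ) < t := by linarith
        exact_mod_cast this
      have h3 := (W1 t ht1 htY).1
      have h4 : cl Nat.Prime p (p + t) ≤ co Nat.Prime p (p + t) + 1 := by
        have e1 : cl Nat.Prime p (p + 1) + cl Nat.Prime (p + 1) (p + t) = cl Nat.Prime p (p + t) :=
          cl_add (by omega) (by omega)
        have e2 : cl Nat.Prime (p + 1) (p + t) ≤ cl Nat.Prime (p + 1) (p + t + 1) :=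
          cl_mono (by omega)
        have e3 : cl Nat.Prime (p + 1) (p + t + 1) = co Nat.Prime p (p + t) := cl_succ _ _
        have e4 : cl Nat.Prime p (p + 1) ≤ 1 := by
          have := cl_le_len (P := Nat.Prime) p (p + 1)
          omega
        omega
      have h4' : (cl Nat.Prime p (p + t) : ℝ) ≤ co Nat.Prime p (p + t) + 1 := by exact_mod_cast h4
      rw [← ht] at h4' h3
      have h5 : 1 ≤ c / 4 * (s + t) / L := by
        rw [le_div_iff₀ hL0]
        have h6 : 4 / c * L ≤ s + t := by linarith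
        calc 1 * L = c / 4 * (4 / c * L) := by field_simp
          _ ≤ c / 4 * (s + t) := by gcongr
      have h6 : c / 2 * (s + t) / L ≤ c / L * t := by
        have : c / 2 * ((s : ℝ) + t) ≤ c * t := by nlinarith
        calc c / 2 * (s + t) / L ≤ c * t / L := by gcongr
          _ = c / L * t := by ring
      have h7 : c / 2 * ((s : ℝ) + t) / L = c / 4 * (s + t) / L + c / 4 * (s + t) / L := by ring
      rw [hadd]
      linarith
    · have hst'r : (t : ℝ) ≤ s := by exact_mod_cast hst'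
      have hs1 : 1 ≤ s := by
        have : (0 : ℝ) < s := by linarith
        exact_mod_cast this
      have h3 := (W1 s hs1 hsY).2
      have e : p + 1 - s = a + 1 := by omega
      rw [e, cl_succ] at h3
      have h6 : c / 4 * (s + t) / L ≤ c / L * s := by
        have : c / 4 * ((s : ℝ) + t) ≤ c * s := by nlinarith
        calc c / 4 * (s + t) / L ≤ c * s / L := by gcongr
          _ = c / L * s := by ring
      rw [hadd]
      linarith
  · have hmaxr : ∀ u : ℕ, u ≤ Y → (co Nat.Prime p (p + u) : ℝ) ≤ Lam / L * (u + L) := by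
      intro u hu
      obtain ⟨m, hm⟩ : ∃ m, m = max u ⌊L⌋₊ := ⟨_, rfl⟩
      have hm1 : u ≤ m := by rw [hm]; exact le_max_left _ _
      have hm2 : ⌊L⌋₊ ≤ m := by rw [hm]; exact le_max_right _ _
      have hm3 : m ≤ Y := by rw [hm]; exact max_le hu hTY
      have hm4 : (m : ℝ) ≤ u + L := by
        rw [hm]; push_cast
        exact max_le (by linarith) (by linarith [(Nat.cast_nonneg u : (0 : ℝ) ≤ u)])
      have h3 := (W2 m hm2 hm3).1
      have h4 : (co Nat.Prime p (p + u) : ℝ) ≤ co Nat.Prime p (p + m) := by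
        have := co_mono (P := Nat.Prime) (a := p) (b := p + u) (b' := p + m) (by omega)
        exact_mod_cast this
      refine h4.trans (h3.trans ?_)
      gcongr
    have hmaxl : ∀ u : ℕ, u ≤ Y → u ≤ p → (co Nat.Prime (p - u) p : ℝ) ≤ Lam / L * (u + L) := by
      intro u hu hup
      obtain ⟨m, hm⟩ : ∃ m, m = max u ⌊L⌋₊ := ⟨_, rfl⟩
      have hm1 : u ≤ m := by rw [hm]; exact le_max_left _ _
      have hm2 : ⌊L⌋₊ ≤ m := by rw [hm]; exact le_max_right _ _
      have hm3 : m ≤ Y := by rw [hm]; exact max_le hu hTY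
      have hm4 : (m : ℝ) ≤ u + L := by
        rw [hm]; push_cast
        exact max_le (by linarith) (by linarith [(Nat.cast_nonneg u : (0 : ℝ) ≤ u)])
      have h3 := (W2 m hm2 hm3).2
      have h4 : (co Nat.Prime (p - u) p : ℝ) ≤ co Nat.Prime (p - m) p := by
        have := co_anti (P := Nat.Prime) (a := p - m) (a' := p - u) (b := p) (by omega)
        exact_mod_cast this
      refine h4.trans (h3.trans ?_)
      gcongr
    have h3 := hmaxr t htY
    have h4 := hmaxl s hsY (by omega)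
    rw [← ht] at h3
    have e : p - s = a := by omega
    rw [e] at h4
    rw [hadd]
    have h5 : Lam / L * (s + L) + Lam / L * (t + L) ≤ 2 * Lam * (s + t) / L := by
      have h6 : (s + L) + (t + L) ≤ 2 * (s + t) := by linarith
      calc Lam / L * (s + L) + Lam / L * (t + L) = Lam / L * ((s + L) + (t + L)) := by ring
        _ ≤ Lam / L * (2 * (s + t)) := by gcongr
        _ = _ := by ring
    linarith

/-- windows of length between `Y` and `p` -/
lemma long (θ cS c L : ℝ) (X Y p X₀ Y₀ : ℕ) (hθ : 0 < θ) (hθ1 : θ ≤ 1) (hcS : 0 < cS)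
    (hX₀ : 2 ≤ X₀)
    (hS : ∀ X Y : ℕ, X₀ ≤ X → (X : ℝ) ^ θ ≤ Y → Y ≤ X →
      cS * Y / Real.log X ≤ (((Finset.Ioc X (X + Y)).filter Nat.Prime).card : ℝ))
    (hbt : ∀ A Y : ℕ, Y₀ ≤ Y →
      (((Ioc A (A + Y)).filter Nat.Prime).card : ℝ) ≤ 3 * Y / Real.log Y)
    (hc : 0 < c) (hL : L = Real.log X) (hL2 : 2 ≤ L) (hLY : 16 / c * L ≤ Y)
    (hYY : Y₀ ≤ Y) (hY1 : 1 ≤ Y) (hYθ : (X : ℝ) ^ θ ≤ Y) (hXX : 2 * X₀ ≤ X)
    (hXp : X < p) (hpX : p ≤ X + Y) (hYX : Y ≤ X)
    (W1 : ∀ H : ℕ, 1 ≤ H → H ≤ Y →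
          c / L * H ≤ cl Nat.Prime p (p + H) ∧
          c / L * H ≤ cl Nat.Prime (p + 1 - H) (p + 1)) :
    ∀ a b : ℕ, a ≤ p → p ≤ b → (Y : ℝ) < (b : ℝ) - a → (b : ℝ) - a ≤ p →
      min (c / 16) (cS / 12) * ((b : ℝ) - a) / L ≤ (co Nat.Prime a b : ℝ) ∧
        (co Nat.Prime a b : ℝ) ≤ 3 / θ * ((b : ℝ) - a) / L := by
  intro a b ha hb h1 h2
  have hL0 : 0 < L := by linarith
  obtain ⟨s, hs⟩ : ∃ s, p = a + s := ⟨p - a, by omega⟩
  obtain ⟨t, ht⟩ : ∃ t, b = p + t := ⟨b - p, by omega⟩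
  obtain ⟨W, hW⟩ : ∃ W, W = s + t := ⟨_, rfl⟩
  have hst : (b : ℝ) - a = W := by rw [hW, ht, hs]; push_cast; ring
  have hWr : (W : ℝ) = s + t := by rw [hW]; push_cast; ring
  rw [hst] at h1 h2 ⊢
  have hYW : Y < W := by exact_mod_cast h1
  have hWp : W ≤ p := by exact_mod_cast h2
  have hXr : (2 : ℝ) ≤ X := by
    have : 2 ≤ X := by omega
    exact_mod_cast this
  have hYr : (1 : ℝ) ≤ Y := by exact_mod_cast hY1
  have hW0 : (0 : ℝ) < W := by linarith
  have hp2X : (p : ℝ) ≤ 2 * X := by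
    have : p ≤ 2 * X := by omega
    exact_mod_cast this
  have hXpr : (X : ℝ) ≤ p := by exact_mod_cast hXp.le
  have hlogp : Real.log p ≤ 2 * L := by
    rw [hL]
    calc Real.log p ≤ Real.log ((X : ℝ) ^ 2) := Real.log_le_log (by linarith) (by nlinarith)
      _ = 2 * Real.log X := by rw [Real.log_pow]; norm_num
  have hlogp0 : 0 < Real.log p := by
    apply Real.log_pos
    linarith
  have hpθ : (p : ℝ) ^ θ ≤ 2 * Y := by
    calc (p : ℝ) ^ θ ≤ (2 * (X : ℝ)) ^ θ := Real.rpow_le_rpow (by linarith) hp2X hθ.le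
      _ = 2 ^ θ * (X : ℝ) ^ θ := Real.mul_rpow (by norm_num) (by linarith)
      _ ≤ 2 * Y := by
        apply mul_le_mul _ hYθ (by positivity) (by norm_num)
        calc (2 : ℝ) ^ θ ≤ 2 ^ (1 : ℝ) := Real.rpow_le_rpow_of_exponent_le (by norm_num) hθ1
          _ = 2 := Real.rpow_one _
  have hadd : (co Nat.Prime a b : ℝ) = co Nat.Prime a p + co Nat.Prime p b := by
    have := co_add (P := Nat.Prime) ha hb
    exact_mod_cast this.symm
  have ha0 : (0 : ℝ) ≤ co Nat.Prime a p := Nat.cast_nonneg _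
  have hb0 : (0 : ℝ) ≤ co Nat.Prime p b := Nat.cast_nonneg _
  have hm1 : min (c / 16) (cS / 12) ≤ c / 16 := min_le_left _ _
  have hm2 : min (c / 16) (cS / 12) ≤ cS / 12 := min_le_right _ _
  have hbig : 1 ≤ c / 16 * W / L := by
    rw [le_div_iff₀ hL0]
    have h6 : 16 / c * L ≤ W := by linarith
    calc 1 * L = c / 16 * (16 / c * L) := by field_simp
      _ ≤ c / 16 * W := by gcongr
  constructor
  · rcases le_total s t with hst' | hst'
    · have hst'r : (s : ℝ) ≤ t := by exact_mod_cast hst'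
      have ht1 : 1 ≤ t := by omega
      by_cases h4 : t ≤ 4 * Y
      · obtain ⟨H, hH⟩ : ∃ H, H = min t Y := ⟨_, rfl⟩
        have hH1 : 1 ≤ H := by rw [hH]; exact le_min ht1 hY1
        have hHY : H ≤ Y := by rw [hH]; exact min_le_right _ _
        have hHt : H ≤ t := by rw [hH]; exact min_le_left _ _
        have hH4 : t ≤ 4 * H := by
          rcases le_total t Y with h | h
          · rw [hH, min_eq_left h]; omega
          · rw [hH, min_eq_right h]; omega
        have hH4r : (t : ℝ) ≤ 4 * H := by exact_mod_cast hH4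
        have h3 := (W1 H hH1 hHY).1
        have h5 : cl Nat.Prime p (p + H) ≤ co Nat.Prime p b + 1 := by
          have e1 : cl Nat.Prime p (p + 1) + cl Nat.Prime (p + 1) (p + H) =
            cl Nat.Prime p (p + H) := cl_add (by omega) (by omega)
          have e2 : cl Nat.Prime (p + 1) (p + H) ≤ cl Nat.Prime (p + 1) (b + 1) :=
            cl_mono (by omega)
          have e3 : cl Nat.Prime (p + 1) (b + 1) = co Nat.Prime p b := cl_succ _ _
          have e4 : cl Nat.Prime p (p + 1) ≤ 1 := by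
            have := cl_le_len (P := Nat.Prime) p (p + 1)
            omega
          omega
        have h5' : (cl Nat.Prime p (p + H) : ℝ) ≤ co Nat.Prime p b + 1 := by exact_mod_cast h5
        have h6 : c / 8 * W / L ≤ c / L * H := by
          have : c / 8 * (W : ℝ) ≤ c * H := by nlinarith
          calc c / 8 * W / L ≤ c * H / L := by gcongr
            _ = c / L * H := by ring
        have h7 : c / 8 * (W : ℝ) / L = c / 16 * W / L + c / 16 * W / L := by ring
        have h8 : min (c / 16) (cS / 12) * (W : ℝ) / L ≤ c / 16 * W / L := by gcongr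
        rw [hadd]
        linarith
      · have h5 := hS p t (by omega) (by
          refine hpθ.trans ?_
          have : 2 * Y ≤ t := by omega
          exact_mod_cast this) (by omega)
        rw [← ht] at h5
        change _ ≤ (co Nat.Prime p b : ℝ) at h5
        have h6 : cS / 12 * W / L ≤ cS * t / Real.log p := by
          rw [div_le_div_iff₀ hL0 hlogp0]
          have h7 : (W : ℝ) ≤ 2 * t := by linarith
          have ht0 : (0 : ℝ) ≤ t := Nat.cast_nonneg t
          calc cS / 12 * W * Real.log p ≤ cS / 12 * (2 * t) * (2 * L) := by gcongr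
            _ = cS / 3 * t * L := by ring
            _ ≤ cS * t * L := by gcongr; linarith
        have h8 : min (c / 16) (cS / 12) * (W : ℝ) / L ≤ cS / 12 * W / L := by gcongr
        rw [hadd]
        linarith
    · have hst'r : (t : ℝ) ≤ s := by exact_mod_cast hst'
      have hs1 : 1 ≤ s := by omega
      by_cases h4 : s ≤ 8 * Y
      · obtain ⟨H, hH⟩ : ∃ H, H = min s Y := ⟨_, rfl⟩
        have hH1 : 1 ≤ H := by rw [hH]; exact le_min hs1 hY1
        have hHY : H ≤ Y := by rw [hH]; exact min_le_right _ _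
        have hHt : H ≤ s := by rw [hH]; exact min_le_left _ _
        have hH4 : s ≤ 8 * H := by
          rcases le_total s Y with h | h
          · rw [hH, min_eq_left h]; omega
          · rw [hH, min_eq_right h]; omega
        have hH4r : (s : ℝ) ≤ 8 * H := by exact_mod_cast hH4
        have h3 := (W1 H hH1 hHY).2
        have e : p + 1 - H = (p - H) + 1 := by omega
        rw [e, cl_succ] at h3
        have h5 : co Nat.Prime (p - H) p ≤ co Nat.Prime a p := co_anti (by omega)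
        have h5' : (co Nat.Prime (p - H) p : ℝ) ≤ co Nat.Prime a p := by exact_mod_cast h5
        have h6 : c / 16 * W / L ≤ c / L * H := by
          have : c / 16 * (W : ℝ) ≤ c * H := by nlinarith
          calc c / 16 * W / L ≤ c * H / L := by gcongr
            _ = c / L * H := by ring
        have h8 : min (c / 16) (cS / 12) * (W : ℝ) / L ≤ c / 16 * W / L := by gcongr
        rw [hadd]
        linarith
      · obtain ⟨s', hs'⟩ : ∃ s', s' = s / 2 := ⟨_, rfl⟩
        have h5 := hS (p - s') s' (by omega) (by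
          have e1 : (((p - s' : ℕ) : ℝ)) ≤ p := by exact_mod_cast Nat.sub_le _ _
          refine (Real.rpow_le_rpow (Nat.cast_nonneg _) e1 hθ.le).trans (hpθ.trans ?_)
          have : 2 * Y ≤ s' := by omega
          exact_mod_cast this) (by omega)
        have e2 : p - s' + s' = p := by omega
        rw [e2] at h5
        change _ ≤ (co Nat.Prime (p - s') p : ℝ) at h5
        have h6 : co Nat.Prime (p - s') p ≤ co Nat.Prime a p := co_anti (by omega)
        have h6' : (co Nat.Prime (p - s') p : ℝ) ≤ co Nat.Prime a p := by exact_mod_cast h6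
        have hlog1 : Real.log ((p - s' : ℕ) : ℝ) ≤ Real.log p := by
          apply Real.log_le_log
          · have : 0 < p - s' := by omega
            exact_mod_cast this
          · exact_mod_cast Nat.sub_le _ _
        have hlog0 : 0 < Real.log ((p - s' : ℕ) : ℝ) := by
          apply Real.log_pos
          have : 1 < p - s' := by omega
          exact_mod_cast this
        have h7 : cS / 12 * W / L ≤ cS * s' / Real.log ((p - s' : ℕ) : ℝ) := by
          rw [div_le_div_iff₀ hL0 hlog0]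
          have h8 : W ≤ 6 * s' := by omega
          have h8r : (W : ℝ) ≤ 6 * s' := by exact_mod_cast h8
          have hs'0 : (0 : ℝ) ≤ s' := Nat.cast_nonneg s'
          calc cS / 12 * W * Real.log ((p - s' : ℕ) : ℝ) ≤ cS / 12 * (6 * s') * (2 * L) := by
                gcongr
                linarith
            _ = cS * s' * L := by ring
        have h8 : min (c / 16) (cS / 12) * (W : ℝ) / L ≤ cS / 12 * W / L := by gcongr
        rw [hadd]
        linarith
  · have h3 := hbt a W (by omega)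
    have e : a + W = b := by omega
    rw [e] at h3
    change (co Nat.Prime a b : ℝ) ≤ _ at h3
    refine h3.trans ?_
    have hlogW : θ * L ≤ Real.log W := by
      rw [hL, ← Real.log_rpow (by linarith)]
      apply Real.log_le_log (by positivity)
      linarith
    calc 3 * (W : ℝ) / Real.log W ≤ 3 * W / (θ * L) := by gcongr
      _ = 3 / θ * W / L := by field_simp

/-- from `log X` to `log p` -/
lemma to_log (c₁ c₂ K L : ℝ) (X Y p Z : ℕ) (hc₁ : 0 < c₁) (hc₂ : 0 < c₂) (hK : 0 < K)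
    (hL : L = Real.log X) (hL2 : 2 ≤ L) (hXp : X < p) (hpX : p ≤ X + Y) (hYX : Y ≤ X)
    (hX : 3 ≤ X)
    (h : ∀ a b : ℕ, a ≤ p → p ≤ b → K * L ≤ (b : ℝ) - a → (b : ℝ) - a ≤ Z →
      c₁ * ((b : ℝ) - a) / L ≤ (co Nat.Prime a b : ℝ) ∧
        (co Nat.Prime a b : ℝ) ≤ c₂ * ((b : ℝ) - a) / L) :
    RegularUpTo c₁ (2 * c₂) K Z p := by
  have hL0 : 0 < L := by linarith
  have hXr : (3 : ℝ) ≤ X := by exact_mod_cast hX
  have hp2X : (p : ℝ) ≤ 2 * X := by
    have : p ≤ 2 * X := by omega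
    exact_mod_cast this
  have hXpr : (X : ℝ) ≤ p := by exact_mod_cast hXp.le
  have hlogp : Real.log p ≤ 2 * L := by
    rw [hL]
    calc Real.log p ≤ Real.log ((X : ℝ) ^ 2) := Real.log_le_log (by linarith) (by nlinarith)
      _ = 2 * Real.log X := by rw [Real.log_pow]; norm_num
  have hlogp1 : L ≤ Real.log p := by
    rw [hL]; exact Real.log_le_log (by linarith) hXpr
  have hlogp0 : 0 < Real.log p := by linarith
  intro a b ha hb h1 h2
  have h3 := h a b ha hb (by
    refine le_trans ?_ h1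
    gcongr) h2
  have hab : (0 : ℝ) ≤ (b : ℝ) - a := by
    have : (a : ℝ) ≤ b := by exact_mod_cast ha.trans hb
    linarith
  constructor
  · refine le_trans ?_ h3.1
    gcongr
  · refine h3.2.trans ?_
    rw [div_le_div_iff₀ hL0 hlogp0]
    calc c₂ * ((b : ℝ) - a) * Real.log p ≤ c₂ * ((b : ℝ) - a) * (2 * L) := by gcongr
      _ = 2 * c₂ * ((b : ℝ) - a) * L := by ring

open Classical in
/-- almost all primes of every interval of length `X ^ θ`, all windows of length at most `Y` -/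
theorem short_thm (θ : ℝ) (h0 : 0 < θ) (h1 : θ ≤ 1) (ε : ℝ) (hε : 0 < ε) :
    ∃ c₁ c₂ K : ℝ, 0 < c₁ ∧ 0 < c₂ ∧ 0 < K ∧ ∀ᶠ X : ℕ in atTop, ∀ Y : ℕ, (X : ℝ) ^ θ ≤ Y →
      Y ≤ X → (((Finset.Ioc X (X + Y)).filter
        (fun p => p.Prime ∧ ¬ RegularUpTo c₁ c₂ K Y p)).card : ℝ) ≤ ε * Y / Real.log X := by
  obtain ⟨c, Lam, hc, hLam, hall⟩ := prime_windows θ h0 h1 ε hε
  obtain ⟨K, hK⟩ := hall 1 one_pos
  refine ⟨c / 4, 2 * (2 * Lam), 2 + 4 / c, by positivity, by positivity, by positivity, ?_⟩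
  have hXr : Tendsto (fun X : ℕ => (X : ℝ)) atTop atTop := tendsto_natCast_atTop_atTop
  have hlogX : Tendsto (fun X : ℕ => Real.log (X : ℝ)) atTop atTop :=
    Real.tendsto_log_atTop.comp hXr
  have hpl : ∀ᶠ X : ℕ in atTop, Real.log X ≤ (X : ℝ) ^ θ := by
    have h := ((isLittleO_log_rpow_atTop h0).comp_tendsto hXr).bound (by norm_num : (0 : ℝ) < 1)
    filter_upwards [h, eventually_ge_atTop 1] with X hX hX1
    have hX1' : (1 : ℝ) ≤ X := by exact_mod_cast hX1
    have hl := Real.log_nonneg hX1'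
    simp only [Function.comp_def, one_mul] at hX
    rwa [Real.norm_of_nonneg hl, Real.norm_of_nonneg (by positivity)] at hX
  filter_upwards [hK, hlogX.eventually_ge_atTop 2, hpl, eventually_ge_atTop 3] with X hX hL2 hpl hX3
  intro Y hY hYX
  refine le_trans ?_ (hX Y hY hYX)
  have hsub : (Finset.Ioc X (X + Y)).filter
        (fun p => p.Prime ∧ ¬ RegularUpTo (c / 4) (2 * (2 * Lam)) (2 + 4 / c) Y p) ⊆
      (Finset.Ioc X (X + Y)).filter (fun p => p.Prime ∧ ¬ (
        (∀ H : ℕ, 1 ≤ H → H ≤ Y →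
          c / Real.log X * H ≤ cl Nat.Prime p (p + H) ∧
          c / Real.log X * H ≤ cl Nat.Prime (p + 1 - H) (p + 1)) ∧
        (∀ H : ℕ, ⌊Real.log X⌋₊ ≤ H → H ≤ Y →
          (co Nat.Prime p (p + H) : ℝ) ≤ Lam / Real.log X * H ∧
          (co Nat.Prime (p - H) p : ℝ) ≤ Lam / Real.log X * H) ∧
        ((range (Nat.log 2 Y + 1)).filter (fun j => Real.log X ≤ (2 : ℝ) ^ j ∧
          ¬ Pool.Agent.W123.GS.Good Nat.Prime 0 Lam 1 (Real.log X) p j)).card ≤ K)) := by
    intro p hp
    rw [mem_filter, mem_Ioc] at hp ⊢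
    obtain ⟨⟨hp1, hp2⟩, hp3, hp4⟩ := hp
    refine ⟨⟨hp1, hp2⟩, hp3, ?_⟩
    rintro ⟨W1, W2, -⟩
    apply hp4
    exact to_log (c / 4) (2 * Lam) (2 + 4 / c) (Real.log X) X Y p Y (by positivity) (by positivity)
      (by positivity) rfl hL2 hp1 hp2 hYX hX3
      (short c Lam (Real.log X) X Y p hc hLam rfl hL2 (hpl.trans hY) hp1 hp2 hYX hX3 W1 W2)
  exact_mod_cast card_le_card hsub

open Classical in
/-- almost all primes of every interval of length `X ^ θ`, all windows -/
theorem long_thm (θ : ℝ) (h0 : 0 < θ) (h1 : θ ≤ 1)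
    (hS : Pool.Agent.H932R4.MO.ShortIntervals θ) (ε : ℝ) (hε : 0 < ε) :
    ∃ c₁ c₂ K : ℝ, 0 < c₁ ∧ 0 < c₂ ∧ 0 < K ∧ ∀ᶠ X : ℕ in atTop, ∀ Y : ℕ, (X : ℝ) ^ θ ≤ Y →
      Y ≤ X → (((Finset.Ioc X (X + Y)).filter
        (fun p => p.Prime ∧ ¬ RegularUpTo c₁ c₂ K p p)).card : ℝ) ≤
          ε * (((Finset.Ioc X (X + Y)).filter Nat.Prime).card : ℝ) := by
  obtain ⟨cS, hcS, X₀, hX₀, hS⟩ := hS
  obtain ⟨Y₀, hY₀, hbt⟩ := Pool.Agent.H932R4.MO.bt3
  obtain ⟨c, Lam, hc, hLam, hall⟩ := prime_windows θ h0 h1 (ε * cS) (by positivity)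
  obtain ⟨K, hK⟩ := hall 1 one_pos
  have hmin : 0 < min (c / 16) (cS / 12) := by positivity
  refine ⟨min (c / 16) (cS / 12), 2 * (2 * Lam + 3 / θ), 2 + 4 / c, hmin, by positivity,
    by positivity, ?_⟩
  have hXr : Tendsto (fun X : ℕ => (X : ℝ)) atTop atTop := tendsto_natCast_atTop_atTop
  have hlogX : Tendsto (fun X : ℕ => Real.log (X : ℝ)) atTop atTop :=
    Real.tendsto_log_atTop.comp hXr
  have hpow : Tendsto (fun X : ℕ => (X : ℝ) ^ θ) atTop atTop :=
    (tendsto_rpow_atTop h0).comp hXr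
  have hpl : ∀ᶠ X : ℕ in atTop, (16 / c + 1) * Real.log X ≤ (X : ℝ) ^ θ := by
    have h := ((isLittleO_log_rpow_atTop h0).comp_tendsto hXr).bound
      (by positivity : (0 : ℝ) < 1 / (16 / c + 1))
    filter_upwards [h, eventually_ge_atTop 1] with X hX hX1
    have hX1' : (1 : ℝ) ≤ X := by exact_mod_cast hX1
    have hl := Real.log_nonneg hX1'
    simp only [Function.comp_def] at hX
    rw [Real.norm_of_nonneg hl, Real.norm_of_nonneg (by positivity)] at hX
    have hb : 0 < 16 / c + 1 := by positivity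
    calc (16 / c + 1) * Real.log X ≤ (16 / c + 1) * (1 / (16 / c + 1) * (X : ℝ) ^ θ) := by gcongr
      _ = (X : ℝ) ^ θ := by field_simp
  filter_upwards [hK, hlogX.eventually_ge_atTop 2, hpl, eventually_ge_atTop (2 * X₀ + 3),
    hpow.eventually_ge_atTop ((Y₀ : ℝ) + 1)] with X hX hL2 hpl hX3 hpY
  intro Y hY hYX
  have hYr : (Y₀ : ℝ) + 1 ≤ Y := hpY.trans hY
  have hYn : Y₀ + 1 ≤ Y := by exact_mod_cast hYr
  have hL0 : 0 < Real.log (X : ℝ) := by linarith
  have h4 := hX Y hY hYX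
  have h5 := hS X Y (by omega) hY hYX
  have h6 : ε * cS * Y / Real.log X ≤ ε * (((Finset.Ioc X (X + Y)).filter Nat.Prime).card : ℝ) := by
    calc ε * cS * Y / Real.log X = ε * (cS * Y / Real.log X) := by ring
      _ ≤ _ := by gcongr
  refine le_trans ?_ (h4.trans h6)
  have h16 : 0 < 16 / c := by positivity
  have hsub : (Finset.Ioc X (X + Y)).filter
        (fun p => p.Prime ∧ ¬ RegularUpTo (min (c / 16) (cS / 12)) (2 * (2 * Lam + 3 / θ))
          (2 + 4 / c) p p) ⊆
      (Finset.Ioc X (X + Y)).filter (fun p => p.Prime ∧ ¬ (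
        (∀ H : ℕ, 1 ≤ H → H ≤ Y →
          c / Real.log X * H ≤ cl Nat.Prime p (p + H) ∧
          c / Real.log X * H ≤ cl Nat.Prime (p + 1 - H) (p + 1)) ∧
        (∀ H : ℕ, ⌊Real.log X⌋₊ ≤ H → H ≤ Y →
          (co Nat.Prime p (p + H) : ℝ) ≤ Lam / Real.log X * H ∧
          (co Nat.Prime (p - H) p : ℝ) ≤ Lam / Real.log X * H) ∧
        ((range (Nat.log 2 Y + 1)).filter (fun j => Real.log X ≤ (2 : ℝ) ^ j ∧
          ¬ Pool.Agent.W123.GS.Good Nat.Prime 0 Lam 1 (Real.log X) p j)).card ≤ K)) := by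
    intro p hp
    rw [mem_filter, mem_Ioc] at hp ⊢
    obtain ⟨⟨hp1, hp2⟩, hp3, hp4⟩ := hp
    refine ⟨⟨hp1, hp2⟩, hp3, ?_⟩
    rintro ⟨W1, W2, -⟩
    apply hp4
    have hLY : Real.log X ≤ Y := by
      have : 0 ≤ 16 / c * Real.log X := by positivity
      linarith
    have hLY2 : 16 / c * Real.log X ≤ Y := by linarith
    apply to_log (min (c / 16) (cS / 12)) (2 * Lam + 3 / θ) (2 + 4 / c) (Real.log X) X Y p p
      hmin (by positivity) (by positivity) rfl hL2 hp1 hp2 hYX (by omega)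
    intro a b ha hb hab1 hab2
    have hab0 : (0 : ℝ) ≤ (b : ℝ) - a := by
      have : (a : ℝ) ≤ b := by exact_mod_cast ha.trans hb
      linarith
    rcases le_or_gt ((b : ℝ) - a) Y with hcase | hcase
    · have h7 := short c Lam (Real.log X) X Y p hc hLam rfl hL2 hLY hp1 hp2 hYX (by omega) W1 W2
        a b ha hb hab1 hcase
      constructor
      · refine le_trans ?_ h7.1
        have : min (c / 16) (cS / 12) ≤ c / 4 := (min_le_left _ _).trans (by linarith)
        gcongr
      · refine h7.2.trans ?_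
        have : 0 < 3 / θ := by positivity
        gcongr
        linarith
    · have h7 := long θ cS c (Real.log X) X Y p X₀ Y₀ h0 h1 hcS hX₀ hS hbt hc rfl hL2 hLY2
        (by omega) (by omega) hY (by omega) hp1 hp2 hYX W1 a b ha hb hcase hab2
      refine ⟨h7.1, h7.2.trans ?_⟩
      gcongr
      linarith
  exact_mod_cast card_le_card hsub

end Pool.Agent.TH886.RP
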